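import Mathlib
import Pool.Graph.R_seed8.W719.AEC.Alt

/-!
# Symplectic alternants: det (z_j ^ a_i - z_j ^ (-a_i)) and their branching recursion
-/

set_option autoImplicit false

open Finset

namespace H562SP

open W719AEC (vd vd_succ inter mem_inter inter_mono)

/-- The symplectic alternant det (z_j ^ a_i - z_j ^ (-a_i)). -/
noncomputable def altC {n : ℕ} (a : Fin n → ℕ) (z : Fin n → ℂ) : ℂ :=
  Matrix.det (Matrix.of fun i j : Fin n => z j ^ a i - (z j)⁻¹ ^ a i)

/-- The symplectic Weyl denominator. -/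
noncomputable def vdC {n : ℕ} (z : Fin n → ℂ) : ℂ :=
  (∏ j, (z j - (z j)⁻¹)) * vd (fun j => z j + (z j)⁻¹)

/-- The intermediate alternant. -/
noncomputable def altG {n : ℕ} (k : Fin n → ℕ) (y : ℂ) (z : Fin n → ℂ) : ℂ :=
  Matrix.det (Matrix.of fun i j : Fin n =>
    (z j ^ (k i + 1) - (z j)⁻¹ ^ (k i + 1)) - y * (z j ^ k i - (z j)⁻¹ ^ k i))

theorem tele (f : ℕ → ℂ) (y : ℂ) (p q : ℕ) (h : p ≤ q) :
    f q - y ^ (q - p) * f p = ∑ c ∈ Ico p q, y ^ (q - 1 - c) * (f (c + 1) - y * f c) := by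
  induction q, h using Nat.le_induction with
  | base => simp
  | succ q hq ih =>
    rw [Finset.sum_Ico_succ_top hq]
    have h1 : ∀ c ∈ Ico p q, y ^ (q + 1 - 1 - c) * (f (c + 1) - y * f c) =
        y * (y ^ (q - 1 - c) * (f (c + 1) - y * f c)) := by
      intro c hc
      rw [mem_Ico] at hc
      rw [show q + 1 - 1 - c = (q - 1 - c) + 1 by omega, pow_succ]
      ring
    rw [Finset.sum_congr rfl h1, ← Finset.mul_sum, ← ih, show q + 1 - p = (q - p) + 1 by omega,
      pow_succ, show q + 1 - 1 - q = 0 by omega]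
    ring

/-- A determinant whose rows are sums. -/
theorem det_row_sum {n : ℕ} (s : Fin n → Finset ℕ) (u : Fin n → ℕ → ℂ) (g : ℕ → Fin n → ℂ) :
    Matrix.det (Matrix.of fun i j : Fin n => ∑ c ∈ s i, u i c * g c j) =
      ∑ c ∈ Fintype.piFinset s, (∏ i : Fin n, u i (c i)) *
        Matrix.det (Matrix.of fun i j : Fin n => g (c i) j) := by
  have h5 := (Matrix.detRowAlternating (R := ℂ) (n := Fin n)).toMultilinearMap.map_sum_finset
    (A := s) (g := fun i c => fun j : Fin n => u i c * g c j)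
  have h6 : Matrix.det (Matrix.of fun i j : Fin n => ∑ c ∈ s i, u i c * g c j) =
      (Matrix.detRowAlternating (R := ℂ) (n := Fin n)).toMultilinearMap
        (fun i => ∑ c ∈ s i, (fun j : Fin n => u i c * g c j)) := by
    show Matrix.det _ = Matrix.det _
    congr 1
    ext i j
    simp only [Matrix.of_apply]
    rw [Finset.sum_apply]
  rw [h6, h5]
  refine Finset.sum_congr rfl fun c _ => ?_
  show Matrix.det (Matrix.of fun i j : Fin n => u i (c i) * g (c i) j) = _
  have := Matrix.det_mul_column (fun i : Fin n => u i (c i)) (Matrix.of fun i j : Fin n => g (c i) j)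
  simp only [Matrix.of_apply] at this
  exact this

theorem altC_step {n : ℕ} (a : Fin (n + 1) → ℕ) (y : ℂ) (z : Fin (n + 1) → ℂ)
    (ha : ∀ i : Fin n, a i.castSucc ≤ a i.succ) :
    altC a z = ∑ k ∈ inter (Fin.cons 0 a : Fin (n + 2) → ℕ),
      (∏ i : Fin (n + 1), y ^ (a i - 1 - k i)) * altG k y z := by
  have h1 : altC a z = Matrix.det (Matrix.of fun i j : Fin (n + 1) =>
      ∑ c ∈ Ico ((Fin.cons 0 a : Fin (n + 2) → ℕ) i.castSucc) ((Fin.cons 0 a : Fin (n + 2) → ℕ) i.succ),
        y ^ (a i - 1 - c) *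
          ((z j ^ (c + 1) - (z j)⁻¹ ^ (c + 1)) - y * (z j ^ c - (z j)⁻¹ ^ c))) := by
    unfold altC
    refine Matrix.det_eq_of_forall_row_eq_smul_add_pred
      (fun i : Fin n => y ^ (a i.succ - a i.castSucc)) ?_ ?_
    · intro j
      simp only [Matrix.of_apply, Fin.castSucc_zero, Fin.cons_zero, Fin.cons_succ]
      have := tele (fun m => z j ^ m - (z j)⁻¹ ^ m) y 0 (a 0) (Nat.zero_le _)
      simp only [pow_zero, sub_self, mul_zero, sub_zero] at this
      exact this
    · intro i j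
      simp only [Matrix.of_apply]
      have := tele (fun m => z j ^ m - (z j)⁻¹ ^ m) y (a i.castSucc) (a i.succ) (ha i)
      rw [Fin.castSucc_succ, Fin.cons_succ, Fin.cons_succ, ← this]
      ring
  rw [h1]
  exact det_row_sum (fun i : Fin (n + 1) => Ico ((Fin.cons 0 a : Fin (n + 2) → ℕ) i.castSucc)
    ((Fin.cons 0 a : Fin (n + 2) → ℕ) i.succ)) (fun i c => y ^ (a i - 1 - c))
    (fun c j => (z j ^ (c + 1) - (z j)⁻¹ ^ (c + 1)) - y * (z j ^ c - (z j)⁻¹ ^ c))

theorem altG_step {n : ℕ} (k : Fin (n + 1) → ℕ) (z : Fin (n + 1) → ℂ) (hz : ∀ j, z j ≠ 0)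
    (hk : ∀ i : Fin n, k i.castSucc ≤ k i.succ) :
    altG k (z 0) z = ((z 0)⁻¹ ^ k 0 * (z 0 - (z 0)⁻¹)) *
      ((∏ j : Fin n, ((z j.succ + (z j.succ)⁻¹) - (z 0 + (z 0)⁻¹))) *
      ∑ m ∈ inter k, (∏ i : Fin n, (z 0)⁻¹ ^ (k i.succ - 1 - m i)) *
        altC (fun i => m i + 1) (fun j => z j.succ)) := by
  set G : ℕ → Fin (n + 1) → ℂ := fun c j =>
    (z j ^ (c + 1) - (z j)⁻¹ ^ (c + 1)) - z 0 * (z j ^ c - (z j)⁻¹ ^ c) with hG
  have hG0 : ∀ c, G c 0 = (z 0)⁻¹ ^ c * (z 0 - (z 0)⁻¹) := by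
    intro c
    have h0 := hz 0
    simp only [hG]
    rw [pow_succ, pow_succ, inv_pow]
    field_simp
    ring
  have hGd : ∀ c j, G (c + 1) j - (z 0)⁻¹ * G c j =
      ((z j + (z j)⁻¹) - (z 0 + (z 0)⁻¹)) * (z j ^ (c + 1) - (z j)⁻¹ ^ (c + 1)) := by
    intro c j
    have h0 := hz 0
    have hj := hz j
    have e1 : z j * (z j)⁻¹ = 1 := mul_inv_cancel₀ hj
    have e0 : z 0 * (z 0)⁻¹ = 1 := mul_inv_cancel₀ h0
    simp only [hG]
    generalize (z j)⁻¹ = u at e1 ⊢
    generalize (z 0)⁻¹ = v at e0 ⊢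
    simp only [pow_succ]
    linear_combination (z j ^ c - u ^ c) * e0 + (- z j ^ c + u ^ c) * e1
  have h1 : altG k (z 0) z = Matrix.det (Matrix.of fun i j : Fin (n + 1) =>
      (Fin.cases (G (k 0) j) (fun i' : Fin n => G (k i'.succ) j -
        (z 0)⁻¹ ^ (k i'.succ - k i'.castSucc) * G (k i'.castSucc) j) i : ℂ)) := by
    unfold altG
    refine Matrix.det_eq_of_forall_row_eq_smul_add_pred
      (fun i : Fin n => (z 0)⁻¹ ^ (k i.succ - k i.castSucc)) ?_ ?_
    · intro j; simp [hG]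
    · intro i j; simp [hG]
  rw [h1, Matrix.det_succ_column_zero, Fin.sum_univ_succ]
  have h2 : ∀ i : Fin n, (-1 : ℂ) ^ ((i.succ : Fin (n + 1)) : ℕ) *
      (Matrix.of fun i j : Fin (n + 1) =>
      (Fin.cases (G (k 0) j) (fun i' : Fin n => G (k i'.succ) j -
        (z 0)⁻¹ ^ (k i'.succ - k i'.castSucc) * G (k i'.castSucc) j) i : ℂ)) i.succ 0 *
      Matrix.det ((Matrix.of fun i j : Fin (n + 1) =>
      (Fin.cases (G (k 0) j) (fun i' : Fin n => G (k i'.succ) j -
        (z 0)⁻¹ ^ (k i'.succ - k i'.castSucc) * G (k i'.castSucc) j) i : ℂ)).submatrix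
          i.succ.succAbove Fin.succ) = 0 := by
    intro i
    have : (Matrix.of fun i j : Fin (n + 1) =>
      (Fin.cases (G (k 0) j) (fun i' : Fin n => G (k i'.succ) j -
        (z 0)⁻¹ ^ (k i'.succ - k i'.castSucc) * G (k i'.castSucc) j) i : ℂ)) i.succ 0 = 0 := by
      simp only [Matrix.of_apply, Fin.cases_succ]
      rw [hG0, hG0, ← mul_assoc, ← pow_add, Nat.sub_add_cancel (hk i), sub_self]
    rw [this]; ring
  rw [Finset.sum_congr rfl fun i _ => h2 i, Finset.sum_const_zero, add_zero]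
  have h3 : ((Matrix.of fun i j : Fin (n + 1) =>
      (Fin.cases (G (k 0) j) (fun i' : Fin n => G (k i'.succ) j -
        (z 0)⁻¹ ^ (k i'.succ - k i'.castSucc) * G (k i'.castSucc) j) i : ℂ)).submatrix
          (Fin.succAbove 0) Fin.succ) =
      Matrix.of fun i j : Fin n => ((z j.succ + (z j.succ)⁻¹) - (z 0 + (z 0)⁻¹)) *
        (Matrix.of fun i j : Fin n => ∑ c ∈ Ico (k i.castSucc) (k i.succ),
          (z 0)⁻¹ ^ (k i.succ - 1 - c) * (z j.succ ^ (c + 1) - (z j.succ)⁻¹ ^ (c + 1))) i j := by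
    ext i j
    simp only [Matrix.submatrix_apply, Matrix.of_apply, Fin.zero_succAbove, Fin.cases_succ]
    rw [tele (fun m => G m j.succ) (z 0)⁻¹ _ _ (hk i), Finset.mul_sum]
    refine Finset.sum_congr rfl fun c _ => ?_
    rw [hGd]
    ring
  rw [h3, Matrix.det_mul_row, det_row_sum (fun i : Fin n => Ico (k i.castSucc) (k i.succ))
    (fun i c => (z 0)⁻¹ ^ (k i.succ - 1 - c))
    (fun c j => z j.succ ^ (c + 1) - (z j.succ)⁻¹ ^ (c + 1))]
  simp only [Fin.val_zero, pow_zero, one_mul, Matrix.of_apply, Fin.cases_zero]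
  rw [hG0]
  rfl

/-- The symplectic character (by the branching rule). -/
noncomputable def sp : (n : ℕ) → (Fin n → ℕ) → (Fin n → ℂ) → ℂ
  | 0, _, _ => 1
  | n + 1, a, z => ∑ k ∈ inter (Fin.cons 0 a : Fin (n + 2) → ℕ), ∑ m ∈ inter k,
      z 0 ^ (∑ i, (a i - 1 - k i)) * (z 0)⁻¹ ^ (k 0 + ∑ i : Fin n, (k i.succ - 1 - m i)) *
        sp n (fun i => m i + 1) (fun j => z j.succ)

/-- The number of terms. -/
def spn : (n : ℕ) → (Fin n → ℕ) → ℕ
  | 0, _ => 1
  | n + 1, a => ∑ k ∈ inter (Fin.cons 0 a : Fin (n + 2) → ℕ), ∑ m ∈ inter k, spn n (fun i => m i + 1)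

theorem vdC_succ {n : ℕ} (z : Fin (n + 1) → ℂ) :
    vdC z = (z 0 - (z 0)⁻¹) * (∏ j : Fin n, ((z j.succ + (z j.succ)⁻¹) - (z 0 + (z 0)⁻¹))) *
      vdC (fun j => z j.succ) := by
  unfold vdC
  rw [Fin.prod_univ_succ, vd_succ]
  ring

theorem altC_eq {n : ℕ} : ∀ (a : Fin n → ℕ) (z : Fin n → ℂ), (∀ i j : Fin n, i < j → a i < a j) →
    (∀ j, z j ≠ 0) → altC a z = vdC z * sp n a z := by
  induction n with
  | zero => intro a z _ _; simp [altC, vdC, sp, vd]
  | succ n ih =>
    intro a z ha hz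
    rw [altC_step a (z 0) z (fun i => (ha _ _ i.castSucc_lt_succ).le), vdC_succ]
    simp only [sp]
    rw [Finset.mul_sum]
    refine Finset.sum_congr rfl fun k hk => ?_
    have hkm := inter_mono _ k hk
    rw [altG_step k z hz (fun i => (hkm _ _ i.castSucc_lt_succ).le), Finset.mul_sum, Finset.mul_sum,
      Finset.mul_sum, Finset.mul_sum]
    refine Finset.sum_congr rfl fun m hm => ?_
    have hmm := inter_mono _ m hm
    rw [ih (fun i => m i + 1) (fun j => z j.succ) (fun i j hij => by have := hmm i j hij; omega)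
      (fun j => hz _), Finset.prod_pow_eq_pow_sum, Finset.prod_pow_eq_pow_sum, pow_add]
    ring

theorem sp_norm_le {n : ℕ} : ∀ (a : Fin n → ℕ) (z : Fin n → ℂ), (∀ i, ‖z i‖ = 1) →
    ‖sp n a z‖ ≤ spn n a := by
  induction n with
  | zero => intro b z _; simp [sp, spn]
  | succ n ih =>
    intro a z hz
    simp only [sp, spn]
    push_cast
    refine (norm_sum_le _ _).trans (Finset.sum_le_sum fun k _ =>
      (norm_sum_le _ _).trans (Finset.sum_le_sum fun m _ => ?_))
    rw [norm_mul, norm_mul, norm_pow, norm_pow, norm_inv, hz, inv_one, one_pow, one_pow, one_mul, one_mul]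
    exact ih _ _ fun j => hz _

theorem sp_close {n : ℕ} : ∀ (a : Fin n → ℕ) (z : Fin n → ℂ) (δ : ℝ), (∀ i, ‖z i‖ = 1) →
    (∀ i, ‖z i - 1‖ ≤ δ) → ‖sp n a z - spn n a‖ ≤ δ * (∑ i, (a i : ℝ)) * spn n a := by
  induction n with
  | zero => intro a z δ _ _; simp [sp, spn]
  | succ n ih =>
    intro a z δ hz hδ
    have hδ0 : 0 ≤ δ := (norm_nonneg _).trans (hδ 0)
    simp only [sp, spn]
    push_cast
    rw [← Finset.sum_sub_distrib, Finset.mul_sum]
    refine (norm_sum_le _ _).trans (Finset.sum_le_sum fun k hk => ?_)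
    rw [← Finset.sum_sub_distrib, Finset.mul_sum]
    refine (norm_sum_le _ _).trans (Finset.sum_le_sum fun m hm => ?_)
    rw [mem_inter] at hk hm
    set e1 := ∑ i, (a i - 1 - k i) with he1
    set e2 := k 0 + ∑ i : Fin n, (k i.succ - 1 - m i) with he2
    set X := sp n (fun i => m i + 1) (fun j => z j.succ) with hX
    have hsplit : z 0 ^ e1 * (z 0)⁻¹ ^ e2 * X - spn n (fun i => m i + 1) =
        (z 0 ^ e1 * ((z 0)⁻¹ ^ e2 - 1) + (z 0 ^ e1 - 1)) * X + (X - spn n (fun i => m i + 1)) := by ring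
    rw [hsplit]
    have hzi : ‖(z 0)⁻¹‖ = 1 := by rw [norm_inv, hz, inv_one]
    have hz0 : z 0 ≠ 0 := by
      intro h
      have := hz 0
      rw [h, norm_zero] at this
      exact zero_ne_one this
    have hzi2 : ‖(z 0)⁻¹ - 1‖ ≤ δ := by
      have : (z 0)⁻¹ - 1 = -((z 0)⁻¹ * (z 0 - 1)) := by field_simp; ring
      rw [this, norm_neg, norm_mul, hzi, one_mul]
      exact hδ 0
    have h1 := W719AEC.norm_pow_sub_one_le (z 0) (hz 0) e1
    have h2 := W719AEC.norm_pow_sub_one_le (z 0)⁻¹ hzi e2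
    have h3 := sp_norm_le (fun i => m i + 1) (fun j => z j.succ) (fun j => hz _)
    have h4 := ih (fun i => m i + 1) (fun j => z j.succ) δ (fun j => hz _) (fun j => hδ _)
    have hd : (0 : ℝ) ≤ spn n (fun i => m i + 1) := Nat.cast_nonneg _
    have h5 : ((e1 : ℝ) + e2) + ∑ i, ((m i + 1 : ℕ) : ℝ) ≤ ∑ i, (a i : ℝ) := by
      have : e1 + e2 + ∑ i, (m i + 1) ≤ ∑ i, a i := by
        have g1 : ∀ i : Fin (n + 1), a i - 1 - k i + (k i + 1) = a i := by
          intro i
          have := (hk i).2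
          rw [Fin.cons_succ] at this
          omega
        have g2 : ∑ i, a i = e1 + ∑ i, (k i + 1) := by
          rw [he1, ← Finset.sum_add_distrib]
          exact Finset.sum_congr rfl fun i _ => (g1 i).symm
        have g3 : ∑ i : Fin n, (k i.succ - 1 - m i) + ∑ i, (m i + 1) ≤ ∑ i : Fin n, (k i.succ + 1) := by
          rw [← Finset.sum_add_distrib]
          refine Finset.sum_le_sum fun i _ => ?_
          have := (hm i).2
          omega
        rw [g2, Fin.sum_univ_succ, he2]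
        omega
      exact_mod_cast this
    have h6 : ‖z 0 ^ e1 * ((z 0)⁻¹ ^ e2 - 1) + (z 0 ^ e1 - 1)‖ ≤ ((e1 : ℝ) + e2) * δ := by
      refine (norm_add_le _ _).trans ?_
      rw [norm_mul, norm_pow, hz, one_pow, one_mul]
      have h7 := mul_le_mul_of_nonneg_left (hδ 0) (Nat.cast_nonneg (α := ℝ) e1)
      have h8 := mul_le_mul_of_nonneg_left hzi2 (Nat.cast_nonneg (α := ℝ) e2)
      linarith
    refine (norm_add_le _ _).trans ?_
    rw [norm_mul]
    calc ‖z 0 ^ e1 * ((z 0)⁻¹ ^ e2 - 1) + (z 0 ^ e1 - 1)‖ * ‖X‖ + ‖X - spn n (fun i => m i + 1)‖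
        ≤ (((e1 : ℝ) + e2) * δ) * spn n (fun i => m i + 1) +
          δ * (∑ i, ((m i + 1 : ℕ) : ℝ)) * spn n (fun i => m i + 1) := by
          refine add_le_add (mul_le_mul h6 h3 (norm_nonneg _) ?_) h4
          exact mul_nonneg (by positivity) hδ0
      _ = δ * (((e1 : ℝ) + e2) + ∑ i, ((m i + 1 : ℕ) : ℝ)) * spn n (fun i => m i + 1) := by ring
      _ ≤ δ * (∑ i, (a i : ℝ)) * spn n (fun i => m i + 1) :=
          mul_le_mul_of_nonneg_right (mul_le_mul_of_nonneg_left h5 hδ0) hd

/-- At the trivial label the character is 1. -/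
theorem sp_triv (n : ℕ) (z : Fin n → ℂ) : sp n (fun i => (i : ℕ) + 1) z = 1 := by
  induction n with
  | zero => simp [sp]
  | succ n ih =>
    have h1 : inter (Fin.cons 0 (fun i : Fin (n + 1) => (i : ℕ) + 1) : Fin (n + 2) → ℕ) =
        {fun i : Fin (n + 1) => (i : ℕ)} := by
      ext k
      rw [W719AEC.mem_inter, mem_singleton]
      have e : ∀ i : Fin (n + 2), (Fin.cons 0 (fun i : Fin (n + 1) => (i : ℕ) + 1) : Fin (n + 2) → ℕ) i =
          (i : ℕ) := by
        intro i
        refine Fin.cases ?_ (fun i => ?_) i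
        · simp
        · simp
      constructor
      · intro h
        funext i
        have := h i
        rw [e, e, Fin.val_castSucc, Fin.val_succ] at this
        omega
      · rintro rfl i
        rw [e, e, Fin.val_castSucc, Fin.val_succ]
        exact ⟨le_rfl, Nat.lt_succ_self _⟩
    have h2 : inter (fun i : Fin (n + 1) => (i : ℕ)) = {fun i : Fin n => (i : ℕ)} := by
      ext k
      rw [W719AEC.mem_inter, mem_singleton]
      constructor
      · intro h
        funext i
        have := h i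
        rw [Fin.val_castSucc, Fin.val_succ] at this
        omega
      · rintro rfl i
        rw [Fin.val_castSucc, Fin.val_succ]
        exact ⟨le_rfl, Nat.lt_succ_self _⟩
    simp only [sp]
    rw [h1, Finset.sum_singleton, h2, Finset.sum_singleton, ih]
    simp

theorem altC_triv {n : ℕ} (z : Fin n → ℂ) (hz : ∀ j, z j ≠ 0) :
    altC (fun i : Fin n => (i : ℕ) + 1) z = vdC z := by
  rw [altC_eq _ z (fun i j hij => by have : (i : ℕ) < j := hij; omega) hz, sp_triv, mul_one]

theorem spn_pos {n : ℕ} : ∀ (a : Fin n → ℕ), (∀ i j : Fin n, i < j → a i < a j) → (∀ i, 0 < a i) →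
    0 < spn n a := by
  induction n with
  | zero => intro b _ _; simp [spn]
  | succ n ih =>
    intro a ha h0
    simp only [spn]
    refine Finset.sum_pos (fun k hk => Finset.sum_pos (fun m hm => ih _ ?_ fun i => Nat.succ_pos _)
      ⟨fun i => k i.castSucc, ?_⟩) ⟨fun i => (Fin.cons 0 a : Fin (n + 2) → ℕ) i.castSucc, ?_⟩
    · intro i j hij
      have := inter_mono _ m hm i j hij
      omega
    · rw [mem_inter]
      exact fun i => ⟨le_rfl, inter_mono _ k hk _ _ i.castSucc_lt_succ⟩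
    · rw [mem_inter]
      intro i
      refine ⟨le_rfl, ?_⟩
      refine Fin.cases ?_ (fun i => ?_) i
      · simp [h0 0]
      · rw [Fin.castSucc_succ, Fin.cons_succ, Fin.cons_succ]
        exact ha _ _ i.castSucc_lt_succ

/-- ∑ over interlacing sequences of the Vandermonde product. -/
theorem sum_vd_le {n : ℕ} (b : Fin (n + 1) → ℕ) (hb : ∀ i j : Fin (n + 1), i < j → b i < b j) :
    ∑ c ∈ inter b, vd (fun i => (c i : ℝ)) ≤ vd (fun i => (b i : ℝ)) := by
  have h1 : ∀ c ∈ inter b, vd (fun i => (c i : ℝ)) ≤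
      ∏ i : Fin n, ∏ j ∈ Ioi i, ((b j.succ : ℝ) - b i.castSucc) := by
    intro c hc
    unfold vd
    have hm := inter_mono b c hc
    rw [mem_inter] at hc
    refine Finset.prod_le_prod (fun i _ => Finset.prod_nonneg fun j hj => ?_)
      (fun i _ => Finset.prod_le_prod (fun j hj => ?_) (fun j hj => ?_))
    · have : (c i : ℝ) < c j := by exact_mod_cast hm i j (mem_Ioi.mp hj)
      linarith
    · have : (c i : ℝ) < c j := by exact_mod_cast hm i j (mem_Ioi.mp hj)
      linarith
    · have h1 : (c j : ℝ) < b j.succ := by exact_mod_cast (hc j).2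
      have h2 : (b i.castSucc : ℝ) ≤ c i := by exact_mod_cast (hc i).1
      linarith
  refine (Finset.sum_le_sum h1).trans ?_
  rw [Finset.sum_const, nsmul_eq_mul, W719AEC.vd_castSucc, Finset.prod_mul_distrib]
  refine le_of_eq ?_
  congr 1
  unfold inter
  rw [Fintype.card_piFinset]
  push_cast
  refine Finset.prod_congr rfl fun i _ => ?_
  rw [Nat.card_Ico, Nat.cast_sub (hb _ _ i.castSucc_lt_succ).le]

theorem vd_nonneg {n : ℕ} (b : Fin n → ℕ) (hb : ∀ i j : Fin n, i < j → b i < b j) :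
    0 ≤ vd (fun i => (b i : ℝ)) := by
  unfold vd
  refine Finset.prod_nonneg fun i _ => Finset.prod_nonneg fun j hj => ?_
  have : (b i : ℝ) < b j := by exact_mod_cast hb i j (mem_Ioi.mp hj)
  linarith

/-- The bound (∏ a_i) (∏_{i<j} (a_j - a_i)) (∏_{i<j} (a_i + a_j)) for the number of terms. -/
theorem spn_le {n : ℕ} : ∀ (a : Fin n → ℕ), (∀ i j : Fin n, i < j → a i < a j) →
    (spn n a : ℝ) ≤ (∏ i, (a i : ℝ)) * vd (fun i => (a i : ℝ)) *
      ∏ i : Fin n, ∏ j ∈ Ioi i, ((a i : ℝ) + a j) := by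
  induction n with
  | zero => intro b _; simp [spn, vd]
  | succ n ih =>
    intro a ha
    simp only [spn]
    push_cast
    set Q : ℝ := (∏ i : Fin n, (a i.succ : ℝ)) * ∏ i : Fin n, ∏ j ∈ Ioi i, ((a i.succ : ℝ) + a j.succ) with hQ
    have hQ0 : 0 ≤ Q := by
      rw [hQ]
      exact mul_nonneg (Finset.prod_nonneg fun i _ => Nat.cast_nonneg _)
        (Finset.prod_nonneg fun i _ => Finset.prod_nonneg fun j _ => by positivity)
    have h1 : ∀ k ∈ inter (Fin.cons 0 a : Fin (n + 2) → ℕ), ∀ m ∈ inter k,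
        (spn n (fun i => m i + 1) : ℝ) ≤ Q * vd (fun i => (m i : ℝ)) := by
      intro k hk m hm
      have hmm := inter_mono _ m hm
      rw [mem_inter] at hk hm
      refine (ih _ fun i j hij => by have := hmm i j hij; omega).trans ?_
      have hv : vd (fun i => ((m i + 1 : ℕ) : ℝ)) = vd (fun i => (m i : ℝ)) := by
        unfold vd
        refine Finset.prod_congr rfl fun i _ => Finset.prod_congr rfl fun j _ => ?_
        push_cast; ring
      have hle : ∀ i : Fin n, ((m i + 1 : ℕ) : ℝ) ≤ (a i.succ : ℝ) := by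
        intro i
        have h1 := (hm i).2
        have h2 := (hk i.succ).2
        rw [Fin.cons_succ] at h2
        exact_mod_cast (by omega : m i + 1 ≤ a i.succ)
      rw [hv]
      have g1 : ∏ i : Fin n, ((m i + 1 : ℕ) : ℝ) ≤ ∏ i : Fin n, (a i.succ : ℝ) :=
        Finset.prod_le_prod (fun i _ => Nat.cast_nonneg _) fun i _ => hle i
      have g2 : ∏ i : Fin n, ∏ j ∈ Ioi i, (((m i + 1 : ℕ) : ℝ) + ((m j + 1 : ℕ) : ℝ)) ≤
          ∏ i : Fin n, ∏ j ∈ Ioi i, ((a i.succ : ℝ) + a j.succ) :=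
        Finset.prod_le_prod (fun i _ => Finset.prod_nonneg fun j _ => by positivity) fun i _ =>
          Finset.prod_le_prod (fun j _ => by positivity) fun j _ => add_le_add (hle i) (hle j)
      have g3 := vd_nonneg m hmm
      calc (∏ i : Fin n, ((m i + 1 : ℕ) : ℝ)) * vd (fun i => (m i : ℝ)) *
            ∏ i : Fin n, ∏ j ∈ Ioi i, (((m i + 1 : ℕ) : ℝ) + ((m j + 1 : ℕ) : ℝ))
          = ((∏ i : Fin n, ((m i + 1 : ℕ) : ℝ)) *
            ∏ i : Fin n, ∏ j ∈ Ioi i, (((m i + 1 : ℕ) : ℝ) + ((m j + 1 : ℕ) : ℝ))) *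
              vd (fun i => (m i : ℝ)) := by ring
        _ ≤ Q * vd (fun i => (m i : ℝ)) := by
            refine mul_le_mul_of_nonneg_right ?_ g3
            rw [hQ]
            refine mul_le_mul g1 g2 ?_ ?_
            · exact Finset.prod_nonneg fun i _ => Finset.prod_nonneg fun j _ => by positivity
            · exact Finset.prod_nonneg fun i _ => Nat.cast_nonneg _
    by_cases h0 : a 0 = 0
    · have hempty : inter (Fin.cons 0 a : Fin (n + 2) → ℕ) = ∅ := by
        ext k
        rw [mem_inter]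
        simp only [Finset.notMem_empty, iff_false]
        intro h
        have := (h 0).2
        rw [Fin.cons_succ, h0] at this
        omega
      rw [hempty, Finset.sum_empty, Fin.prod_univ_succ, h0]
      simp
    · have hcons : ∀ i j : Fin (n + 2), i < j →
          (Fin.cons 0 a : Fin (n + 2) → ℕ) i < (Fin.cons 0 a : Fin (n + 2) → ℕ) j := by
        intro i j
        refine Fin.cases ?_ (fun i => ?_) i
        · refine Fin.cases ?_ (fun j => ?_) j
          · intro h; exact absurd h (lt_irrefl _)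
          · intro _
            rw [Fin.cons_zero, Fin.cons_succ]
            rcases Nat.eq_zero_or_pos (j : ℕ) with hj | hj
            · have : j = 0 := Fin.ext hj
              rw [this]; omega
            · have := ha 0 j (by rw [Fin.lt_def]; exact hj)
              omega
        · refine Fin.cases ?_ (fun j => ?_) j
          · intro h
            exact absurd h (by simp)
          · intro h
            rw [Fin.cons_succ, Fin.cons_succ]
            exact ha i j (Fin.succ_lt_succ_iff.mp h)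
      calc ∑ k ∈ inter (Fin.cons 0 a : Fin (n + 2) → ℕ), ∑ m ∈ inter k, (spn n (fun i => m i + 1) : ℝ)
          ≤ ∑ k ∈ inter (Fin.cons 0 a : Fin (n + 2) → ℕ), ∑ m ∈ inter k, Q * vd (fun i => (m i : ℝ)) :=
            Finset.sum_le_sum fun k hk => Finset.sum_le_sum fun m hm => h1 k hk m hm
        _ ≤ ∑ k ∈ inter (Fin.cons 0 a : Fin (n + 2) → ℕ), Q * vd (fun i => (k i : ℝ)) := by
            refine Finset.sum_le_sum fun k hk => ?_
            rw [← Finset.mul_sum]
            exact mul_le_mul_of_nonneg_left (sum_vd_le k (inter_mono _ k hk)) hQ0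
        _ ≤ Q * vd (fun i => ((Fin.cons 0 a : Fin (n + 2) → ℕ) i : ℝ)) := by
            rw [← Finset.mul_sum]
            exact mul_le_mul_of_nonneg_left (sum_vd_le _ hcons) hQ0
        _ = Q * ((∏ j, (a j : ℝ)) * vd (fun i => (a i : ℝ))) := by
            rw [vd_succ]
            simp only [Fin.cons_succ, Fin.cons_zero, Nat.cast_zero, sub_zero]
        _ ≤ _ := by
            have hv := vd_nonneg a ha
            have hp : 0 ≤ ∏ j, (a j : ℝ) := Finset.prod_nonneg fun i _ => Nat.cast_nonneg _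
            have h3 : Q ≤ ∏ i : Fin (n + 1), ∏ j ∈ Ioi i, ((a i : ℝ) + a j) := by
              rw [Fin.prod_univ_succ, Fin.prod_Ioi_zero, hQ]
              have h4 : ∀ i : Fin n, ∏ j ∈ Ioi i.succ, ((a i.succ : ℝ) + a j) =
                  ∏ j ∈ Ioi i, ((a i.succ : ℝ) + a j.succ) := fun i => by rw [Fin.prod_Ioi_succ]
              rw [Finset.prod_congr rfl fun i _ => h4 i]
              refine mul_le_mul_of_nonneg_right ?_
                (Finset.prod_nonneg fun i _ => Finset.prod_nonneg fun j _ => by positivity)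
              refine Finset.prod_le_prod (fun i _ => Nat.cast_nonneg _) fun i _ => ?_
              have : (0 : ℝ) ≤ a 0 := Nat.cast_nonneg _
              linarith
            calc Q * ((∏ j, (a j : ℝ)) * vd (fun i => (a i : ℝ)))
                ≤ (∏ i : Fin (n + 1), ∏ j ∈ Ioi i, ((a i : ℝ) + a j)) *
                  ((∏ j, (a j : ℝ)) * vd (fun i => (a i : ℝ))) :=
                  mul_le_mul_of_nonneg_right h3 (mul_nonneg hp hv)
              _ = _ := by ring

end H562SP
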