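import Mathlib
import Pool.Agent.H562.SP.Alt
import Pool.Graph.R_seed8.W719.AEC.Upper

/-!
# Laplace expansion and the symplectic alternant over a general index type
-/

set_option autoImplicit false

open Finset

namespace H562SP

open W719AEC (vd vd_succ)

/-- The Laplace expansion, as an inequality. -/
theorem laplace_le {ι : Type*} [Fintype ι] [DecidableEq ι] (M : Matrix ι ι ℂ) (p : ι → Prop)
    [DecidablePred p] :
    ‖M.det‖ ≤ ∑ σ : Equiv.Perm ι,
      ‖Matrix.det (Matrix.of fun i j : {x // p x} => M (σ i) j)‖ *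
      ‖Matrix.det (Matrix.of fun i j : {x // ¬ p x} => M (σ i) j)‖ := by
  classical
  have key : ∀ (τ₁ : Equiv.Perm {x // p x}) (τ₂ : Equiv.Perm {x // ¬ p x}),
      M.det = ∑ σ : Equiv.Perm ι, ((Equiv.Perm.sign σ : ℤ) : ℂ) *
        ((((Equiv.Perm.sign τ₁ : ℤ) : ℂ) * ∏ i : {x // p x}, M (σ (τ₁ i)) i) *
         (((Equiv.Perm.sign τ₂ : ℤ) : ℂ) * ∏ i : {x // ¬ p x}, M (σ (τ₂ i)) i)) := by
    intro τ₁ τ₂
    rw [Matrix.det_apply', ← Equiv.sum_comp (Equiv.mulRight (τ₁.subtypeCongr τ₂))]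
    refine Finset.sum_congr rfl fun σ _ => ?_
    rw [Equiv.coe_mulRight, Equiv.Perm.sign_mul, Equiv.Perm.sign_subtypeCongr,
      ← Fintype.prod_subtype_mul_prod_subtype p]
    simp only [Equiv.Perm.coe_mul, Function.comp_apply,
      Equiv.Perm.subtypeCongr.left_apply_subtype, Equiv.Perm.subtypeCongr.right_apply_subtype]
    push_cast
    ring
  have h : ((Fintype.card (Equiv.Perm {x // p x}) * Fintype.card (Equiv.Perm {x // ¬ p x}) : ℕ) : ℂ) *
      M.det = ∑ σ : Equiv.Perm ι, ((Equiv.Perm.sign σ : ℤ) : ℂ) *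
        (Matrix.det (Matrix.of fun i j : {x // p x} => M (σ i) j) *
          Matrix.det (Matrix.of fun i j : {x // ¬ p x} => M (σ i) j)) := by
    calc ((Fintype.card (Equiv.Perm {x // p x}) * Fintype.card (Equiv.Perm {x // ¬ p x}) : ℕ) : ℂ) *
          M.det = ∑ _τ₁ : Equiv.Perm {x // p x}, ∑ _τ₂ : Equiv.Perm {x // ¬ p x}, M.det := by
          rw [Finset.sum_const, Finset.sum_const, Finset.card_univ, Finset.card_univ, nsmul_eq_mul,
            nsmul_eq_mul]
          push_cast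
          ring
      _ = ∑ τ₁ : Equiv.Perm {x // p x}, ∑ τ₂ : Equiv.Perm {x // ¬ p x},
          ∑ σ : Equiv.Perm ι, ((Equiv.Perm.sign σ : ℤ) : ℂ) *
        ((((Equiv.Perm.sign τ₁ : ℤ) : ℂ) * ∏ i : {x // p x}, M (σ (τ₁ i)) i) *
         (((Equiv.Perm.sign τ₂ : ℤ) : ℂ) * ∏ i : {x // ¬ p x}, M (σ (τ₂ i)) i)) :=
          Finset.sum_congr rfl fun τ₁ _ => Finset.sum_congr rfl fun τ₂ _ => key τ₁ τ₂
      _ = ∑ σ : Equiv.Perm ι, ∑ τ₁ : Equiv.Perm {x // p x}, ∑ τ₂ : Equiv.Perm {x // ¬ p x},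
          ((Equiv.Perm.sign σ : ℤ) : ℂ) *
        ((((Equiv.Perm.sign τ₁ : ℤ) : ℂ) * ∏ i : {x // p x}, M (σ (τ₁ i)) i) *
         (((Equiv.Perm.sign τ₂ : ℤ) : ℂ) * ∏ i : {x // ¬ p x}, M (σ (τ₂ i)) i)) := by
          rw [Finset.sum_comm]
          rw [Finset.sum_congr rfl fun τ₂ _ => Finset.sum_comm, Finset.sum_comm]
          exact Finset.sum_congr rfl fun σ _ => Finset.sum_comm
      _ = _ := by
          refine Finset.sum_congr rfl fun σ _ => ?_
          rw [Matrix.det_apply', Matrix.det_apply', Finset.sum_mul_sum, Finset.mul_sum]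
          refine Finset.sum_congr rfl fun τ₁ _ => ?_
          rw [Finset.mul_sum]
          rfl
  have hc : (1 : ℝ) ≤ ((Fintype.card (Equiv.Perm {x // p x}) *
      Fintype.card (Equiv.Perm {x // ¬ p x}) : ℕ) : ℝ) := by
    have h1 : 0 < Fintype.card (Equiv.Perm {x // p x}) := Fintype.card_pos
    have h2 : 0 < Fintype.card (Equiv.Perm {x // ¬ p x}) := Fintype.card_pos
    exact_mod_cast Nat.succ_le_of_lt (Nat.mul_pos h1 h2)
  have h3 := congrArg norm h
  rw [norm_mul, Complex.norm_natCast] at h3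
  calc ‖M.det‖ ≤ ((Fintype.card (Equiv.Perm {x // p x}) *
      Fintype.card (Equiv.Perm {x // ¬ p x}) : ℕ) : ℝ) * ‖M.det‖ :=
        le_mul_of_one_le_left (norm_nonneg _) hc
    _ = _ := h3
    _ ≤ _ := by
        refine (norm_sum_le _ _).trans (Finset.sum_le_sum fun σ _ => ?_)
        rw [norm_mul, norm_mul]
        have : ‖((Equiv.Perm.sign σ : ℤ) : ℂ)‖ = 1 := by
          rcases Int.units_eq_one_or (Equiv.Perm.sign σ) with h1 | h1 <;> rw [h1] <;> simp
        rw [this, one_mul]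

/-- The factors of the square of the Weyl denominator. -/
noncomputable def ez {ι : Type*} [DecidableEq ι] (z : ι → ℂ) (i j : ι) : ℝ :=
  if i = j then ‖z i - (z i)⁻¹‖ ^ 2 else ‖(z i + (z i)⁻¹) - (z j + (z j)⁻¹)‖

/-- The factors of the square of the dimension bound. -/
noncomputable def pm {ι : Type*} [DecidableEq ι] (a : ι → ℕ) (i j : ι) : ℝ :=
  if i = j then (a i : ℝ) ^ 2 else |(a i : ℝ) ^ 2 - (a j : ℝ) ^ 2|

theorem ez_nonneg {ι : Type*} [DecidableEq ι] (z : ι → ℂ) (i j : ι) : 0 ≤ ez z i j := by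
  unfold ez
  split_ifs <;> positivity

theorem pm_nonneg {ι : Type*} [DecidableEq ι] (a : ι → ℕ) (i j : ι) : 0 ≤ pm a i j := by
  unfold pm
  split_ifs <;> positivity

theorem dprod_eq_sq {N : ℕ} (d : Fin N → ℝ) (g : Fin N → Fin N → ℝ) (hg : ∀ i j, g i j = g j i) :
    ∏ i, ∏ j, (if i = j then d i ^ 2 else g i j) =
      ((∏ i, d i) * ∏ i : Fin N, ∏ j ∈ Ioi i, g i j) ^ 2 := by
  have h1 : ∀ i : Fin N, ∏ j, (if i = j then d i ^ 2 else g i j) = d i ^ 2 * ∏ j ∈ univ.erase i, g i j := by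
    intro i
    rw [← Finset.mul_prod_erase univ _ (mem_univ i), if_pos rfl]
    congr 1
    refine Finset.prod_congr rfl fun j hj => ?_
    rw [if_neg (mem_erase.mp hj).1.symm]
  rw [Finset.prod_congr rfl fun i _ => h1 i, Finset.prod_mul_distrib, Finset.prod_pow,
    W719AEC.prod_erase_eq_sq g hg, mul_pow]

theorem prod_ez {n : ℕ} (z : Fin n → ℂ) : ∏ i, ∏ j, ez z i j = ‖vdC z‖ ^ 2 := by
  unfold ez
  rw [dprod_eq_sq (fun i => ‖z i - (z i)⁻¹‖)
    (fun i j => ‖(z i + (z i)⁻¹) - (z j + (z j)⁻¹)‖) (fun i j => norm_sub_rev _ _)]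
  congr 1
  unfold vdC vd
  rw [norm_mul, norm_prod, norm_prod]
  congr 1
  refine Finset.prod_congr rfl fun i _ => ?_
  rw [norm_prod]
  exact Finset.prod_congr rfl fun j _ => norm_sub_rev _ _

theorem prod_pm {n : ℕ} (a : Fin n → ℕ) (ha : ∀ i j : Fin n, i < j → a i < a j) :
    ∏ i, ∏ j, pm a i j = ((∏ i, (a i : ℝ)) * vd (fun i => (a i : ℝ)) *
      ∏ i : Fin n, ∏ j ∈ Ioi i, ((a i : ℝ) + a j)) ^ 2 := by
  unfold pm
  rw [dprod_eq_sq (fun i => (a i : ℝ)) (fun i j => |(a i : ℝ) ^ 2 - (a j : ℝ) ^ 2|)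
    (fun i j => abs_sub_comm _ _)]
  congr 1
  rw [mul_assoc]
  congr 1
  unfold vd
  rw [← Finset.prod_mul_distrib]
  refine Finset.prod_congr rfl fun i _ => ?_
  rw [← Finset.prod_mul_distrib]
  refine Finset.prod_congr rfl fun j hj => ?_
  have h1 : (a i : ℝ) < a j := by exact_mod_cast ha i j (mem_Ioi.mp hj)
  have h0 : (0 : ℝ) ≤ a i := Nat.cast_nonneg _
  rw [abs_sub_comm, abs_of_nonneg (by nlinarith)]
  ring

/-- The symplectic alternant is at most the Weyl denominator times the dimension (squared form, for any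
finite index type). -/
theorem det_sq_le {ι : Type*} [Fintype ι] [DecidableEq ι] (a : ι → ℕ) (ha : Function.Injective a)
    (z : ι → ℂ) (hz : ∀ i, ‖z i‖ = 1) :
    ‖Matrix.det (Matrix.of fun i j : ι => z i ^ a j - (z i)⁻¹ ^ a j)‖ ^ 2 ≤
      (∏ i, ∏ j, ez z i j) * ∏ i, ∏ j, pm a i j := by
  classical
  let e0 : Fin (Fintype.card ι) ≃ ι := (Fintype.equivFin ι).symm
  let e : Fin (Fintype.card ι) ≃ ι := (Tuple.sort (a ∘ e0)).trans e0
  have hmono : StrictMono (fun i => a (e i)) :=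
    (Tuple.monotone_sort (a ∘ e0)).strictMono_of_injective (ha.comp e.injective)
  have hlt : ∀ i j : Fin (Fintype.card ι), i < j → a (e i) < a (e j) := fun i j h => hmono h
  have h1 : Matrix.det (Matrix.of fun i j : ι => z i ^ a j - (z i)⁻¹ ^ a j) =
      altC (fun i => a (e i)) (fun i => z (e i)) := by
    rw [← Matrix.det_submatrix_equiv_self e, ← Matrix.det_transpose]
    rfl
  have h2 : ∏ i, ∏ j, ez z i j = ∏ i, ∏ j, ez (fun i => z (e i)) i j := by
    rw [← Equiv.prod_comp e]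
    refine Finset.prod_congr rfl fun i _ => ?_
    rw [← Equiv.prod_comp e]
    refine Finset.prod_congr rfl fun j _ => ?_
    unfold ez
    simp only [EmbeddingLike.apply_eq_iff_eq]
  have h3 : ∏ i, ∏ j, pm a i j = ∏ i, ∏ j, pm (fun i => a (e i)) i j := by
    rw [← Equiv.prod_comp e]
    refine Finset.prod_congr rfl fun i _ => ?_
    rw [← Equiv.prod_comp e]
    refine Finset.prod_congr rfl fun j _ => ?_
    unfold pm
    simp only [EmbeddingLike.apply_eq_iff_eq]
  have hz0 : ∀ i, z i ≠ 0 := by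
    intro i h
    have := hz i
    rw [h, norm_zero] at this
    exact zero_ne_one this
  rw [h1, h2, h3, prod_ez, prod_pm _ hlt, altC_eq _ _ hlt fun j => hz0 _, norm_mul, mul_pow]
  refine mul_le_mul_of_nonneg_left ?_ (sq_nonneg _)
  refine pow_le_pow_left₀ (norm_nonneg _) ?_ 2
  exact (sp_norm_le _ _ fun i => hz _).trans (spn_le _ hlt)

theorem prod_split {ι : Type*} [Fintype ι] (p : ι → Prop) [DecidablePred p] (h : ι → ι → ℝ) :
    (∏ i : {x // p x}, ∏ j : {x // p x}, h i j) * (∏ i : {x // ¬ p x}, ∏ j : {x // ¬ p x}, h i j) =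
      ∏ i, ∏ j, (if (p i ↔ p j) then h i j else 1) := by
  rw [← Fintype.prod_subtype_mul_prod_subtype p]
  congr 1
  · refine Finset.prod_congr rfl fun i _ => ?_
    rw [← Fintype.prod_subtype_mul_prod_subtype p]
    rw [Finset.prod_congr rfl (g := fun j : {x // ¬ p x} => (1 : ℝ)) fun j _ => by
      rw [if_neg]; intro hh; exact j.2 (hh.mp i.2), Finset.prod_const_one, mul_one]
    refine Finset.prod_congr rfl fun j _ => ?_
    rw [if_pos (iff_of_true i.2 j.2)]
  · refine Finset.prod_congr rfl fun i _ => ?_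
    rw [← Fintype.prod_subtype_mul_prod_subtype p]
    rw [Finset.prod_congr rfl (g := fun j : {x // p x} => (1 : ℝ)) fun j _ => by
      rw [if_neg]; intro hh; exact i.2 (hh.mpr j.2), Finset.prod_const_one, one_mul]
    refine Finset.prod_congr rfl fun j _ => ?_
    rw [if_pos (iff_of_false i.2 j.2)]

end H562SP
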