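import Mathlib
import Pool.Agent.H562.SP.Lap

/-!
# Pointwise estimates for the normalised entries of the symplectic S-matrix
-/

set_option autoImplicit false

open Finset

namespace H562SP

open W719AEC (vd w w_norm norm_w_sub norm_w_sub_one sin_lower)

/-- |sin (π u / (2 r))|. -/
noncomputable def sn (r : ℕ) (u : ℝ) : ℝ := |Real.sin (Real.pi * u / (2 * r : ℕ))|

theorem sn_nonneg (r : ℕ) (u : ℝ) : 0 ≤ sn r u := abs_nonneg _

theorem sn_neg (r : ℕ) (u : ℝ) : sn r (-u) = sn r u := by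
  unfold sn
  rw [show Real.pi * -u / (2 * r : ℕ) = -(Real.pi * u / (2 * r : ℕ)) by ring, Real.sin_neg, abs_neg]

theorem sn_sub_comm (r : ℕ) (u v : ℝ) : sn r (u - v) = sn r (v - u) := by
  rw [← sn_neg r (v - u), neg_sub]

theorem sn_refl (r : ℕ) (hr : 0 < r) (u : ℝ) : sn r (2 * r - u) = sn r u := by
  have hr' : (0 : ℝ) < r := by exact_mod_cast hr
  unfold sn
  rw [show Real.pi * (2 * r - u) / (2 * r : ℕ) = Real.pi - Real.pi * u / (2 * r : ℕ) by
    push_cast; field_simp, Real.sin_pi_sub]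

theorem sn_abs (r : ℕ) (u : ℝ) : sn r |u| = sn r u := by
  rcases abs_cases u with ⟨h, _⟩ | ⟨h, _⟩
  · rw [h]
  · rw [h, sn_neg]

theorem sn_ge (N r : ℕ) (hN : 1 ≤ N) (hr : 0 < r) (u : ℝ) (h0 : 0 ≤ u) (h1 : N * u ≤ (N - 1) * (2 * r)) :
    u / (N * r) ≤ sn r u := by
  have hr' : (0 : ℝ) < r := by exact_mod_cast hr
  have hN' : (0 : ℝ) < N := by exact_mod_cast hN
  have h2 : u / (2 * r) ≤ 1 - 1 / N := by
    rw [div_le_iff₀ (by positivity)]
    have : (1 - 1 / (N : ℝ)) * (2 * r) = (N - 1) * (2 * r) / N := by field_simp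
    rw [this, le_div_iff₀ hN']
    linarith
  have h3 := sin_lower N hN (u / (2 * r)) (by positivity) h2
  unfold sn
  refine le_trans ?_ (le_abs_self _)
  rw [show Real.pi * u / (2 * r : ℕ) = Real.pi * (u / (2 * r)) by push_cast; ring]
  refine le_trans (le_of_eq ?_) h3
  field_simp

theorem sn_ge' (r : ℕ) (hr : 0 < r) (δ u : ℝ) (hδ : 0 ≤ δ) (h0 : δ ≤ u) (h1 : u ≤ 2 * r - δ) :
    δ / r ≤ sn r u := by
  have hr' : (0 : ℝ) < r := by exact_mod_cast hr
  have hpi := Real.pi_pos
  have key : ∀ v : ℝ, δ ≤ v → v ≤ r → δ / r ≤ sn r v := by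
    intro v hv hv1
    have h2 := Real.mul_le_sin (x := Real.pi * v / (2 * r : ℕ)) (by
      have : 0 ≤ v := hδ.trans hv
      positivity) (by
      push_cast
      rw [div_le_iff₀ (by positivity)]
      nlinarith)
    have h3 : 2 / Real.pi * (Real.pi * v / (2 * r : ℕ)) = v / r := by push_cast; field_simp
    rw [h3] at h2
    unfold sn
    refine le_trans ?_ (h2.trans (le_abs_self _))
    exact div_le_div_of_nonneg_right hv hr'.le
  by_cases h : u ≤ r
  · exact key u h0 h
  · push Not at h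
    rw [← sn_refl r hr]
    exact key _ (by linarith) (by linarith)

theorem w_ne (r a : ℕ) : w r ^ a ≠ 0 := by
  intro h
  have := w_norm r a
  rw [h, norm_zero] at this
  exact zero_ne_one this

theorem norm_one (r a : ℕ) : ‖w (2 * r) ^ a - (w (2 * r) ^ a)⁻¹‖ = 2 * sn r (2 * a) := by
  have h0 := w_ne (2 * r) a
  have h1 : w (2 * r) ^ a - (w (2 * r) ^ a)⁻¹ = (w (2 * r) ^ a)⁻¹ * (w (2 * r) ^ (2 * a) - 1) := by
    rw [two_mul a, pow_add]
    field_simp
  rw [h1, norm_mul, norm_inv, w_norm, inv_one, one_mul, norm_w_sub_one]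
  unfold sn
  push_cast
  rfl

theorem norm_two (r a b : ℕ) : ‖(w (2 * r) ^ a + (w (2 * r) ^ a)⁻¹) - (w (2 * r) ^ b + (w (2 * r) ^ b)⁻¹)‖ =
    4 * (sn r ((a : ℝ) - b) * sn r ((a : ℝ) + b)) := by
  have h0 := w_ne (2 * r) a
  have h0' := w_ne (2 * r) b
  have h1 : (w (2 * r) ^ a + (w (2 * r) ^ a)⁻¹) - (w (2 * r) ^ b + (w (2 * r) ^ b)⁻¹) =
      (w (2 * r) ^ a)⁻¹ * (w (2 * r) ^ b)⁻¹ * ((w (2 * r) ^ a - w (2 * r) ^ b) * (w (2 * r) ^ (a + b) - 1)) := by
    rw [pow_add]
    field_simp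
    ring
  rw [h1, norm_mul, norm_mul, norm_inv, norm_inv, w_norm, w_norm, inv_one, one_mul, one_mul, norm_mul,
    norm_w_sub, norm_w_sub_one]
  unfold sn
  push_cast
  ring

/-- The labels of the level r - n - 1 theory of Sp(n), i.e. the dominant integral weights
λ = (λ_1 ≥ ... ≥ λ_n ≥ 0) with λ_1 ≤ r - n - 1. The weight λ is encoded by λ + ρ, i.e. by the strictly
increasing sequence a_i = λ_(n-i) + i + 1 (i = 0, ..., n-1), so that 1 ≤ a_0 < ... < a_(n-1) < r. -/
def labels (n r : ℕ) : Finset (Fin n → ℕ) :=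
  (Fintype.piFinset fun _ : Fin n => Ico 1 r).filter fun a => ∀ i j : Fin n, i < j → a i < a j

theorem mem_labels {n r : ℕ} {a : Fin n → ℕ} : a ∈ labels n r ↔
    (∀ i, 1 ≤ a i ∧ a i < r) ∧ (∀ i j : Fin n, i < j → a i < a j) := by
  unfold labels
  rw [mem_filter, Fintype.mem_piFinset]
  simp only [mem_Ico]

theorem labels_inj {n r : ℕ} {a : Fin n → ℕ} (ha : a ∈ labels n r) : Function.Injective a := by
  rw [mem_labels] at ha
  have : StrictMono a := fun i j h => ha.2 i j h
  exact this.injective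

/-- The absolute value of the Weyl denominator. -/
noncomputable def V {n : ℕ} (r : ℕ) (a : Fin n → ℕ) : ℝ := ‖vdC (fun i => w (2 * r) ^ a i)‖

theorem V_sq {n : ℕ} (r : ℕ) (a : Fin n → ℕ) :
    ∏ i, ∏ j, ez (fun i => w (2 * r) ^ a i) i j = V r a ^ 2 := prod_ez _

theorem ez_diag {n : ℕ} (r : ℕ) (a : Fin n → ℕ) (i : Fin n) :
    ez (fun i => w (2 * r) ^ a i) i i = (2 * sn r (2 * a i)) ^ 2 := by
  unfold ez
  rw [if_pos rfl, norm_one]

theorem ez_off {n : ℕ} (r : ℕ) (a : Fin n → ℕ) {i j : Fin n} (h : i ≠ j) :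
    ez (fun i => w (2 * r) ^ a i) i j = 4 * (sn r ((a i : ℝ) - a j) * sn r ((a i : ℝ) + a j)) := by
  unfold ez
  rw [if_neg h, norm_two]

theorem sn_label_diff {r u v : ℕ} (hr : 0 < r) (hu : 1 ≤ u ∧ u < r) (hv : 1 ≤ v ∧ v < r) (h : u ≠ v) :
    1 / (r : ℝ) ≤ sn r ((u : ℝ) - v) := by
  have hu1 : (1 : ℝ) ≤ u := by exact_mod_cast hu.1
  have hu2 : (u : ℝ) < r := by exact_mod_cast hu.2
  have hv1 : (1 : ℝ) ≤ v := by exact_mod_cast hv.1
  have hv2 : (v : ℝ) < r := by exact_mod_cast hv.2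
  have hr1 : (1 : ℝ) ≤ r := by exact_mod_cast hr
  rcases lt_or_gt_of_ne h with h' | h'
  · have h1 : (u : ℝ) + 1 ≤ v := by exact_mod_cast h'
    rw [sn_sub_comm]
    exact sn_ge' r hr 1 _ zero_le_one (by linarith) (by linarith)
  · have h1 : (v : ℝ) + 1 ≤ u := by exact_mod_cast h'
    exact sn_ge' r hr 1 _ zero_le_one (by linarith) (by linarith)

theorem sn_label_sum {r u v : ℕ} (hr : 0 < r) (hu : 1 ≤ u ∧ u < r) (hv : 1 ≤ v ∧ v < r) :
    1 / (r : ℝ) ≤ sn r ((u : ℝ) + v) := by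
  have hu1 : (1 : ℝ) ≤ u := by exact_mod_cast hu.1
  have hu2 : (u : ℝ) + 1 ≤ r := by exact_mod_cast hu.2
  have hv1 : (1 : ℝ) ≤ v := by exact_mod_cast hv.1
  have hv2 : (v : ℝ) + 1 ≤ r := by exact_mod_cast hv.2
  exact sn_ge' r hr 1 _ zero_le_one (by linarith) (by linarith)

theorem V_pos {n r : ℕ} {a : Fin n → ℕ} (hr : 0 < r) (ha : a ∈ labels n r) : 0 < V r a := by
  have hr' : (0 : ℝ) < r := by exact_mod_cast hr
  have h1 : 0 < V r a ^ 2 := by
    rw [← V_sq]
    refine Finset.prod_pos fun i _ => Finset.prod_pos fun j _ => ?_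
    have hm := mem_labels.mp ha
    have hp : (0 : ℝ) < 1 / r := by positivity
    by_cases h : i = j
    · rw [← h, ez_diag]
      have := sn_label_sum hr (hm.1 i) (hm.1 i)
      rw [← two_mul] at this
      have h2 : 0 < sn r (2 * a i) := lt_of_lt_of_le hp this
      positivity
    · rw [ez_off r a h]
      have h2 := lt_of_lt_of_le hp (sn_label_sum hr (hm.1 i) (hm.1 j))
      have h3 := lt_of_lt_of_le hp (sn_label_diff hr (hm.1 i) (hm.1 j) fun hh => h (labels_inj ha hh))
      positivity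
  have h0 : 0 ≤ V r a := norm_nonneg _
  rcases h0.lt_or_eq with h | h
  · exact h
  · rw [← h] at h1; simp at h1

/-- The factor inequality. -/
theorem factor_le {n N r : ℕ} (hN : 1 ≤ N) (hr : 0 < r) (p : Fin n → Prop) [DecidablePred p]
    (a b m : Fin n → ℕ) (hainj : Function.Injective a) (ha : ∀ i, 1 ≤ a i ∧ a i < r)
    (hb : ∀ i, 1 ≤ b i ∧ b i < r) (hm : ∀ i, m i = if p i then b i else r - b i)
    (hmN : ∀ i, N * m i ≤ (N - 1) * r) (hx : ∀ i j, p i → ¬ p j → r + N * b i ≤ N * b j) (i j : Fin n) :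
    (if (p i ↔ p j) then ez (fun i => w (2 * r) ^ a i) i j * pm m i j else 1) ≤
      ((N : ℝ) * r) ^ 2 * (ez (fun i => w (2 * r) ^ a i) i j * ez (fun i => w (2 * r) ^ b i) i j) := by
  have hr' : (0 : ℝ) < r := by exact_mod_cast hr
  have hN' : (0 : ℝ) < N := by exact_mod_cast hN
  have hmR : ∀ i, (N : ℝ) * m i ≤ (N - 1) * r := by
    intro i
    have := (Nat.cast_le (α := ℝ)).mpr (hmN i)
    rw [Nat.cast_mul, Nat.cast_mul, Nat.cast_sub hN] at this
    simpa using this
  have hm0 : ∀ i, (0 : ℝ) ≤ m i := fun i => Nat.cast_nonneg _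
  have hbr : ∀ i, ¬ p i → (m i : ℝ) = r - b i := by
    intro i hi
    rw [hm i, if_neg hi, Nat.cast_sub (hb i).2.le]
  have hbp : ∀ i, p i → (m i : ℝ) = b i := by
    intro i hi
    rw [hm i, if_pos hi]
  by_cases hpq : (p i ↔ p j)
  · rw [if_pos hpq]
    suffices h : pm m i j ≤ ((N : ℝ) * r) ^ 2 * ez (fun i => w (2 * r) ^ b i) i j by
      calc ez (fun i => w (2 * r) ^ a i) i j * pm m i j
          ≤ ez (fun i => w (2 * r) ^ a i) i j * (((N : ℝ) * r) ^ 2 * ez (fun i => w (2 * r) ^ b i) i j) :=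
            mul_le_mul_of_nonneg_left h (ez_nonneg _ _ _)
        _ = _ := by ring
    by_cases hij : i = j
    · rw [← hij, ez_diag]
      unfold pm
      rw [if_pos rfl]
      have h1 : sn r (2 * b i) = sn r (2 * m i) := by
        by_cases hp : p i
        · rw [hbp i hp]
        · rw [hbr i hp, show 2 * ((r : ℝ) - b i) = 2 * r - 2 * b i by ring, sn_refl r hr]
      rw [h1]
      have h2 := sn_ge N r hN hr (2 * m i) (by have := hm0 i; positivity) (by have := hmR i; linarith)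
      have h3 : (m i : ℝ) ≤ (N * r) * (2 * sn r (2 * m i)) := by
        calc (m i : ℝ) ≤ 4 * m i := by have := hm0 i; linarith
          _ = (N * r) * (2 * (2 * m i / (N * r))) := by field_simp; ring
          _ ≤ _ := by
              apply mul_le_mul_of_nonneg_left _ (by positivity)
              linarith
      calc (m i : ℝ) ^ 2 ≤ ((N * r) * (2 * sn r (2 * m i))) ^ 2 := pow_le_pow_left₀ (hm0 i) h3 2
        _ = _ := by ring
    · rw [ez_off r b hij]
      unfold pm
      rw [if_neg hij]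
      have h1 : sn r ((b i : ℝ) - b j) * sn r ((b i : ℝ) + b j) =
          sn r |(m i : ℝ) - m j| * sn r ((m i : ℝ) + m j) := by
        rw [sn_abs]
        by_cases hp : p i
        · rw [hbp i hp, hbp j (hpq.mp hp)]
        · rw [hbr i hp, hbr j (fun h => hp (hpq.mpr h)),
            show ((r : ℝ) - b i) + (r - b j) = 2 * r - (b i + b j) by ring, sn_refl r hr,
            show ((r : ℝ) - b i) - (r - b j) = -((b i : ℝ) - b j) by ring, sn_neg]
      rw [h1]
      have hi := hmR i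
      have hj := hmR j
      have hi0 := hm0 i
      have hj0 := hm0 j
      have hN1 : (0 : ℝ) ≤ (N - 1) * r := by
        have : (1 : ℝ) ≤ N := by exact_mod_cast hN
        have h2 : (0 : ℝ) ≤ N - 1 := by linarith
        positivity
      have h2 := sn_ge N r hN hr |(m i : ℝ) - m j| (abs_nonneg _) (by
        have h3 : (N : ℝ) * |(m i : ℝ) - m j| = |(N : ℝ) * m i - (N : ℝ) * m j| := by
          rw [← mul_sub, abs_mul, abs_of_pos hN']
        rw [h3, abs_le]
        have h4 : 0 ≤ (N : ℝ) * m i := by positivity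
        have h5 : 0 ≤ (N : ℝ) * m j := by positivity
        constructor <;> linarith)
      have h3 := sn_ge N r hN hr ((m i : ℝ) + m j) (by positivity) (by
        rw [mul_add]; linarith)
      have h4 : |(m i : ℝ) ^ 2 - (m j : ℝ) ^ 2| = |(m i : ℝ) - m j| * (m i + m j) := by
        rw [show (m i : ℝ) ^ 2 - (m j : ℝ) ^ 2 = (m i - m j) * (m i + m j) by ring, abs_mul,
          abs_of_nonneg (by positivity : (0 : ℝ) ≤ (m i : ℝ) + m j)]
      rw [h4]
      calc |(m i : ℝ) - m j| * (m i + m j) ≤ 4 * (|(m i : ℝ) - m j| * (m i + m j)) := by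
            have : 0 ≤ |(m i : ℝ) - m j| * (m i + m j) := by positivity
            linarith
        _ = (N * r) ^ 2 * (4 * ((|(m i : ℝ) - m j| / (N * r)) * ((m i + m j) / (N * r)))) := by
            field_simp
        _ ≤ _ := by
            apply mul_le_mul_of_nonneg_left _ (by positivity)
            apply mul_le_mul_of_nonneg_left _ (by norm_num)
            exact mul_le_mul h2 h3 (by positivity) (sn_nonneg _ _)
  · rw [if_neg hpq]
    have hij : i ≠ j := by rintro rfl; exact hpq Iff.rfl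
    rw [ez_off r a hij, ez_off r b hij]
    have h1 := sn_label_diff hr (ha i) (ha j) (fun h => hij (hainj h))
    have h2 := sn_label_sum hr (ha i) (ha j)
    have key : ∀ u v : ℕ, 1 ≤ u ∧ u < r → 1 ≤ v ∧ v < r → r + N * u ≤ N * v →
        1 / (N : ℝ) ≤ sn r ((v : ℝ) - u) ∧ 1 / (N : ℝ) ≤ sn r ((u : ℝ) + v) := by
      intro u v hu hv huv
      have hu1 : (1 : ℝ) ≤ u := by exact_mod_cast hu.1
      have hu2 : (u : ℝ) < r := by exact_mod_cast hu.2
      have hv1 : (1 : ℝ) ≤ v := by exact_mod_cast hv.1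
      have hv2 : (v : ℝ) < r := by exact_mod_cast hv.2
      have h3 : (r : ℝ) + N * u ≤ N * v := by exact_mod_cast huv
      have h4 : (r : ℝ) / N ≤ v - u := by
        rw [div_le_iff₀ hN']; linarith
      have h5 : 1 / (N : ℝ) = (r / N) / r := by field_simp
      have h6 : (0 : ℝ) ≤ r / N := by positivity
      rw [h5]
      exact ⟨sn_ge' r hr _ _ h6 h4 (by linarith), sn_ge' r hr _ _ h6 (by linarith) (by linarith)⟩
    have h3 : 1 / (N : ℝ) ≤ sn r ((b i : ℝ) - b j) ∧ 1 / (N : ℝ) ≤ sn r ((b i : ℝ) + b j) := by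
      by_cases hp : p i
      · have hq : ¬ p j := fun h => hpq (iff_of_true hp h)
        have := key _ _ (hb i) (hb j) (hx i j hp hq)
        rw [sn_sub_comm]
        exact this
      · have hq : p j := by
          by_contra h
          exact hpq (iff_of_false hp h)
        have := key _ _ (hb j) (hb i) (hx j i hq hp)
        rw [add_comm (b i : ℝ)]
        exact this
    calc (1 : ℝ) ≤ 16 := by norm_num
      _ = ((N : ℝ) * r) ^ 2 * ((4 * ((1 / r) * (1 / r))) * (4 * ((1 / N) * (1 / N)))) := by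
          field_simp; norm_num
      _ ≤ _ := by
          apply mul_le_mul_of_nonneg_left _ (by positivity)
          have h4 : (1 / (r : ℝ)) * (1 / r) ≤ sn r ((a i : ℝ) - a j) * sn r ((a i : ℝ) + a j) :=
            mul_le_mul h1 h2 (by positivity) (sn_nonneg _ _)
          have h5 : (1 / (N : ℝ)) * (1 / N) ≤ sn r ((b i : ℝ) - b j) * sn r ((b i : ℝ) + b j) :=
            mul_le_mul h3.1 h3.2 (by positivity) (sn_nonneg _ _)
          refine mul_le_mul (by linarith) (by linarith) (by positivity) ?_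
          have := sn_nonneg r ((a i : ℝ) - a j)
          have := sn_nonneg r ((a i : ℝ) + a j)
          positivity

end H562SP
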