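import Mathlib
import Pool.Agent.H562.SP.Est

/-!
# The pointwise upper bound for the normalised entries
-/

set_option autoImplicit false

open Finset

namespace H562SP

open W719AEC (vd w w_norm)

theorem w_r (r : ℕ) (hr : 0 < r) : w (2 * r) ^ r = -1 := by
  have hr' : (r : ℂ) ≠ 0 := by exact_mod_cast hr.ne'
  unfold w
  rw [← Complex.exp_nat_mul, show (r : ℂ) * -(2 * Real.pi * Complex.I / ((2 * r : ℕ) : ℂ)) =
    -(Real.pi * Complex.I) by push_cast; field_simp, Complex.exp_neg, Complex.exp_pi_mul_I]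
  norm_num

theorem refl_entry (r : ℕ) (hr : 0 < r) (a b : ℕ) (hb : b ≤ r) :
    (w (2 * r) ^ a) ^ b - (w (2 * r) ^ a)⁻¹ ^ b =
      (-(-1 : ℂ) ^ a) * ((w (2 * r) ^ a) ^ (r - b) - (w (2 * r) ^ a)⁻¹ ^ (r - b)) := by
  have h0 := w_ne (2 * r) a
  have h1 : (w (2 * r) ^ a) ^ r = (-1) ^ a := by
    rw [← pow_mul, mul_comm a r, pow_mul, w_r r hr]
  obtain ⟨c, rfl⟩ := Nat.exists_eq_add_of_le hb
  rw [show b + c - b = c by omega]
  set x := w (2 * (b + c)) ^ a with hx
  have h2 : x ^ b * x ^ c = (-1) ^ a := by rw [← pow_add]; exact h1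
  have h3 : (-1 : ℂ) ^ a * (-1) ^ a = 1 := by rw [← mul_pow]; norm_num
  have e1 : x ^ b * x⁻¹ ^ b = 1 := by rw [← mul_pow, mul_inv_cancel₀ h0, one_pow]
  have e2 : x ^ c * x⁻¹ ^ c = 1 := by rw [← mul_pow, mul_inv_cancel₀ h0, one_pow]
  generalize x ^ b = P at *
  generalize x⁻¹ ^ b = P' at *
  generalize x ^ c = Q at *
  generalize x⁻¹ ^ c = Q' at *
  generalize (-1 : ℂ) ^ a = s at *
  -- P Q = s, s s = 1, P P' = 1, Q Q' = 1
  have hP : P = s * Q' := by
    calc P = P * (Q * Q') := by rw [e2, mul_one]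
      _ = (P * Q) * Q' := by ring
      _ = s * Q' := by rw [h2]
  have hP' : P' = s * Q := by
    calc P' = (s * s) * P' := by rw [h3, one_mul]
      _ = s * (P * Q) * P' := by rw [h2]
      _ = s * Q * (P * P') := by ring
      _ = s * Q := by rw [e1, mul_one]
  rw [hP, hP']
  ring

theorem core {n r : ℕ} (hr : 0 < r) {a b : Fin n → ℕ} (ha : a ∈ labels n r) (hb : b ∈ labels n r) :
    ‖altC b (fun i => w (2 * r) ^ a i)‖ ≤
      (n.factorial : ℝ) * (((((n + 1 : ℕ) : ℝ) * r) ^ (n ^ 2)) * (V r a * V r b)) := by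
  classical
  set N : ℕ := n + 1 with hNdef
  have hN : 1 ≤ N := by omega
  have ham := mem_labels.mp ha
  have hbm := mem_labels.mp hb
  have hVa := V_pos hr ha
  have hVb := V_pos hr hb
  -- the empty window
  obtain ⟨t, ht⟩ : ∃ t : Fin N, ∀ j, N * b j / r ≠ t := by
    by_contra hcon
    push Not at hcon
    have hlt : ∀ j, N * b j / r < N := by
      intro j
      rw [Nat.div_lt_iff_lt_mul hr]
      exact Nat.mul_lt_mul_of_pos_left (hbm.1 j).2 (by omega)
    have hsurj : Function.Surjective (fun j : Fin n => (⟨N * b j / r, hlt j⟩ : Fin N)) := by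
      intro t
      obtain ⟨j, hj⟩ := hcon t
      exact ⟨j, Fin.ext hj⟩
    have := Fintype.card_le_of_surjective _ hsurj
    rw [Fintype.card_fin, Fintype.card_fin] at this
    omega
  let p : Fin n → Prop := fun j => N * b j / r < t
  let m : Fin n → ℕ := fun j => if p j then b j else r - b j
  have ht' : (t : ℕ) + 1 ≤ N := t.isLt
  have hpL : ∀ j, p j → N * b j < t * r := fun j hj => (Nat.div_lt_iff_lt_mul hr).mp hj
  have hpR : ∀ j, ¬ p j → (t + 1) * r ≤ N * b j := by
    intro j hj
    have h1 : (t : ℕ) ≤ N * b j / r := not_lt.mp hj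
    have h2 : (t : ℕ) + 1 ≤ N * b j / r := lt_of_le_of_ne h1 (ht j).symm
    exact (Nat.le_div_iff_mul_le hr).mp h2
  have hmN : ∀ j, N * m j ≤ (N - 1) * r := by
    intro j
    have hb2 := (hbm.1 j).2
    by_cases hj : p j
    · simp only [m, if_pos hj]
      refine (hpL j hj).le.trans (Nat.mul_le_mul_right r ?_)
      omega
    · simp only [m, if_neg hj]
      have h1 := hpR j hj
      have h2 : r ≤ N * b j := le_trans (Nat.le_mul_of_pos_left r (Nat.succ_pos _)) h1
      rw [Nat.mul_sub, Nat.sub_mul, one_mul]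
      omega
  have hx : ∀ i j, p i → ¬ p j → r + N * b i ≤ N * b j := by
    intro i j hi hj
    have h1 := hpL i hi
    have h2 := hpR j hj
    rw [add_mul, one_mul] at h2
    omega
  set M : Matrix (Fin n) (Fin n) ℂ := Matrix.of fun i j : Fin n =>
    (w (2 * r) ^ a i) ^ b j - (w (2 * r) ^ a i)⁻¹ ^ b j with hM
  have hdet : altC b (fun i => w (2 * r) ^ a i) = M.det := by
    rw [← Matrix.det_transpose]
    rfl
  have hterm : ∀ σ : Equiv.Perm (Fin n),
      ‖Matrix.det (Matrix.of fun i j : {x // p x} => M (σ i) j)‖ *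
      ‖Matrix.det (Matrix.of fun i j : {x // ¬ p x} => M (σ i) j)‖ ≤
        ((((N : ℕ) : ℝ) * r) ^ (n ^ 2)) * (V r a * V r b) := by
    intro σ
    set as : Fin n → ℕ := fun i => a (σ i) with has
    have hasinj : Function.Injective as := (labels_inj ha).comp σ.injective
    have h1 := det_sq_le (ι := {x // p x}) (fun j => b j)
      (fun i j hij => Subtype.ext (labels_inj hb hij)) (fun i => w (2 * r) ^ as i) (fun i => w_norm _ _)
    have h2 := det_sq_le (ι := {x // ¬ p x}) (fun j => r - b j)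
      (fun i j hij => by
        have e1 := (hbm.1 i).2
        have e2 := (hbm.1 j).2
        simp only at hij
        exact Subtype.ext (labels_inj hb (by omega))) (fun i => w (2 * r) ^ as i) (fun i => w_norm _ _)
    have h3 : ‖Matrix.det (Matrix.of fun i j : {x // ¬ p x} => M (σ i) j)‖ =
        ‖Matrix.det (Matrix.of fun i j : {x // ¬ p x} => (w (2 * r) ^ as i) ^ (r - b j) -
          (w (2 * r) ^ as i)⁻¹ ^ (r - b j))‖ := by
      have h4 : (Matrix.of fun i j : {x // ¬ p x} => M (σ i) j) =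
          Matrix.of fun i j : {x // ¬ p x} => (-(-1 : ℂ) ^ as i) *
            (Matrix.of fun i j : {x // ¬ p x} => (w (2 * r) ^ as i) ^ (r - b j) -
          (w (2 * r) ^ as i)⁻¹ ^ (r - b j)) i j := by
        ext i j
        simp only [Matrix.of_apply, hM, has]
        exact refl_entry r hr _ _ (hbm.1 j).2.le
      rw [h4, Matrix.det_mul_column, norm_mul, norm_prod]
      simp
    have h4 : ‖Matrix.det (Matrix.of fun i j : {x // p x} => M (σ i) j)‖ =
        ‖Matrix.det (Matrix.of fun i j : {x // p x} => (w (2 * r) ^ as i) ^ (b j) -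
          (w (2 * r) ^ as i)⁻¹ ^ (b j))‖ := rfl
    rw [h3, h4]
    set D1 := ‖Matrix.det (Matrix.of fun i j : {x // p x} => (w (2 * r) ^ as i) ^ (b j) -
          (w (2 * r) ^ as i)⁻¹ ^ (b j))‖ with hD1
    set D2 := ‖Matrix.det (Matrix.of fun i j : {x // ¬ p x} => (w (2 * r) ^ as i) ^ (r - b j) -
          (w (2 * r) ^ as i)⁻¹ ^ (r - b j))‖ with hD2
    have hD1' : 0 ≤ D1 := norm_nonneg _
    have hD2' : 0 ≤ D2 := norm_nonneg _
    have h5 : D1 ^ 2 ≤ ∏ i : {x // p x}, ∏ j : {x // p x},
        (ez (fun i => w (2 * r) ^ as i) (i : Fin n) j * pm m i j) := by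
      refine h1.trans (le_of_eq ?_)
      rw [← Finset.prod_mul_distrib]
      refine Finset.prod_congr rfl fun i _ => ?_
      rw [← Finset.prod_mul_distrib]
      refine Finset.prod_congr rfl fun j _ => ?_
      have hi : m i = b i := by simp only [m, if_pos i.2]
      have hj : m j = b j := by simp only [m, if_pos j.2]
      unfold ez pm
      simp only [Subtype.ext_iff, hi, hj]
    have h6 : D2 ^ 2 ≤ ∏ i : {x // ¬ p x}, ∏ j : {x // ¬ p x},
        (ez (fun i => w (2 * r) ^ as i) (i : Fin n) j * pm m i j) := by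
      refine h2.trans (le_of_eq ?_)
      rw [← Finset.prod_mul_distrib]
      refine Finset.prod_congr rfl fun i _ => ?_
      rw [← Finset.prod_mul_distrib]
      refine Finset.prod_congr rfl fun j _ => ?_
      have hi : m i = r - b i := by simp only [m, if_neg i.2]
      have hj : m j = r - b j := by simp only [m, if_neg j.2]
      unfold ez pm
      simp only [Subtype.ext_iff, hi, hj]
    have h7 : (D1 * D2) ^ 2 ≤ ((((N : ℕ) : ℝ) * r) ^ (n ^ 2) * (V r a * V r b)) ^ 2 := by
      calc (D1 * D2) ^ 2 = D1 ^ 2 * D2 ^ 2 := by ring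
        _ ≤ (∏ i : {x // p x}, ∏ j : {x // p x},
              (ez (fun i => w (2 * r) ^ as i) (i : Fin n) j * pm m i j)) *
            (∏ i : {x // ¬ p x}, ∏ j : {x // ¬ p x},
              (ez (fun i => w (2 * r) ^ as i) (i : Fin n) j * pm m i j)) :=
            mul_le_mul h5 h6 (sq_nonneg _) ((sq_nonneg _).trans h5)
        _ = ∏ i : Fin n, ∏ j : Fin n, (if (p i ↔ p j) then
              ez (fun i => w (2 * r) ^ as i) i j * pm m i j else 1) :=
            prod_split p (fun i j => ez (fun i => w (2 * r) ^ as i) i j * pm m i j)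
        _ ≤ ∏ i : Fin n, ∏ j : Fin n, (((N : ℝ) * r) ^ 2 * (ez (fun i => w (2 * r) ^ as i) i j *
              ez (fun i => w (2 * r) ^ b i) i j)) := by
            have hnn : ∀ i j : Fin n, 0 ≤ (if (p i ↔ p j) then
                ez (fun i => w (2 * r) ^ as i) i j * pm m i j else 1) := by
              intro i j
              split_ifs
              · exact mul_nonneg (ez_nonneg _ _ _) (pm_nonneg _ _ _)
              · exact zero_le_one
            refine Finset.prod_le_prod (fun i _ => Finset.prod_nonneg fun j _ => hnn i j) fun i _ =>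
              Finset.prod_le_prod (fun j _ => hnn i j) fun j _ => ?_
            exact factor_le hN hr p as b m hasinj (fun i => ham.1 _) hbm.1 (fun i => rfl) hmN hx i j
        _ = _ := by
            have e1 : ∏ i : Fin n, ∏ j : Fin n, ez (fun i => w (2 * r) ^ as i) i j = V r a ^ 2 := by
              rw [← V_sq, ← Equiv.prod_comp σ (fun i => ∏ j, ez (fun i => w (2 * r) ^ a i) i j)]
              refine Finset.prod_congr rfl fun i _ => ?_
              rw [← Equiv.prod_comp σ (fun j => ez (fun i => w (2 * r) ^ a i) (σ i) j)]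
              refine Finset.prod_congr rfl fun j _ => ?_
              unfold ez
              simp only [EmbeddingLike.apply_eq_iff_eq, has]
            have e2 := V_sq r b
            simp only [Finset.prod_mul_distrib, Finset.prod_const, Finset.card_univ, Fintype.card_fin]
            rw [e1, e2, ← pow_mul, ← pow_mul, mul_pow (((N : ℝ) * r) ^ (n ^ 2)), ← pow_mul]
            rw [show 2 * (n * n) = n ^ 2 * 2 by ring]
            ring
    have h8 : 0 ≤ (((N : ℕ) : ℝ) * r) ^ (n ^ 2) * (V r a * V r b) := by positivity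
    exact (pow_le_pow_iff_left₀ (mul_nonneg hD1' hD2') h8 (by norm_num)).mp h7
  rw [hdet]
  refine (laplace_le M p).trans ((Finset.sum_le_sum fun σ _ => hterm σ).trans (le_of_eq ?_))
  rw [Finset.sum_const, Finset.card_univ, Fintype.card_perm, Fintype.card_fin, nsmul_eq_mul]

/-- The normalised entry. -/
noncomputable def F {n : ℕ} (r : ℕ) (a b : Fin n → ℕ) : ℝ :=
  ‖altC b (fun i => w (2 * r) ^ a i)‖ / (V r a * V r b)

theorem F_nonneg {n : ℕ} (r : ℕ) (a b : Fin n → ℕ) : 0 ≤ F r a b := by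
  unfold F V
  positivity

theorem F_le {n r : ℕ} (hr : 0 < r) {a b : Fin n → ℕ} (ha : a ∈ labels n r) (hb : b ∈ labels n r) :
    F r a b ≤ (n.factorial : ℝ) * (((n + 1 : ℕ) : ℝ) * r) ^ (n ^ 2) := by
  unfold F
  rw [div_le_iff₀ (mul_pos (V_pos hr ha) (V_pos hr hb))]
  refine (core hr ha hb).trans (le_of_eq ?_)
  ring

theorem F_le' {n r : ℕ} (hr : 0 < r) {a b : Fin n → ℕ} (ha : a ∈ labels n r) (hb : b ∈ labels n r) :
    F r a b ≤ ((n.factorial : ℝ) * 2 ^ n) / (V r a * V r b) := by
  unfold F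
  refine div_le_div_of_nonneg_right ?_ (mul_pos (V_pos hr ha) (V_pos hr hb)).le
  unfold altC
  have h := Matrix.det_le (A := Matrix.of fun i j : Fin n => (w (2 * r) ^ a j) ^ b i -
      (w (2 * r) ^ a j)⁻¹ ^ b i)
    (abv := (NormedField.toAbsoluteValue ℂ : AbsoluteValue ℂ ℝ)) (x := 2) (by
      intro i j
      show ‖(Matrix.of fun i j : Fin n => (w (2 * r) ^ a j) ^ b i - (w (2 * r) ^ a j)⁻¹ ^ b i) i j‖ ≤ 2
      simp only [Matrix.of_apply]
      refine (norm_sub_le _ _).trans ?_
      have e1 : ‖(w (2 * r) ^ a j) ^ b i‖ = 1 := by rw [norm_pow (w (2 * r) ^ a j), w_norm, one_pow]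
      have e2 : ‖(w (2 * r) ^ a j)⁻¹ ^ b i‖ = 1 := by
        rw [norm_pow (w (2 * r) ^ a j)⁻¹, norm_inv, w_norm, inv_one, one_pow]
      rw [e1, e2]
      norm_num)
  rw [Fintype.card_fin, nsmul_eq_mul] at h
  exact h

end H562SP
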