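import Mathlib
import Pool.Agent.H562.SP.Core

/-!
# Lower bound
-/

set_option autoImplicit false

open Finset

namespace H562SP

open W719AEC (vd w w_norm norm_w_sub_one norm_w_sub_one_le)

/-- The label of the trivial representation. -/
def triv (n : ℕ) : Fin n → ℕ := fun i => i + 1

theorem V_eq_alt {n : ℕ} (r : ℕ) (b : Fin n → ℕ) :
    V r b = ‖altC b (fun i => w (2 * r) ^ triv n i)‖ := by
  have h1 : altC b (fun i => w (2 * r) ^ triv n i) = altC (triv n) (fun i => w (2 * r) ^ b i) := by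
    unfold altC
    rw [← Matrix.det_transpose]
    congr 1
    ext i j
    simp only [Matrix.transpose_apply, Matrix.of_apply]
    rw [inv_pow, inv_pow, ← pow_mul, ← pow_mul, mul_comm (triv n i) (b j)]
  rw [h1]
  unfold V triv
  rw [altC_triv _ fun j => w_ne _ _]

theorem sn_le (r : ℕ) (u : ℝ) (h : 0 ≤ u) : 2 * sn r u ≤ Real.pi * u / r := by
  unfold sn
  have h1 : |Real.sin (Real.pi * u / (2 * r : ℕ))| ≤ |Real.pi * u / (2 * r : ℕ)| := Real.abs_sin_le_abs
  rw [abs_of_nonneg (by positivity : (0 : ℝ) ≤ Real.pi * u / (2 * r : ℕ))] at h1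
  calc 2 * |Real.sin (Real.pi * u / (2 * r : ℕ))| ≤ 2 * (Real.pi * u / (2 * r : ℕ)) := by linarith
    _ = Real.pi * u / r := by push_cast; ring

theorem V_triv_le (n r : ℕ) (hr : 0 < r) :
    V r (triv n) ≤ (2 * Real.pi * n / r : ℝ) ^ (n ^ 2) := by
  have hr' : (0 : ℝ) < r := by exact_mod_cast hr
  have hpi := Real.pi_pos
  have h1 : V r (triv n) ^ 2 ≤ ((2 * Real.pi * n / r : ℝ) ^ (n ^ 2)) ^ 2 := by
    rw [← V_sq]
    have h2 : ((2 * Real.pi * n / r : ℝ) ^ (n ^ 2)) ^ 2 =
        ∏ _i : Fin n, ∏ _j : Fin n, (2 * Real.pi * n / r : ℝ) ^ 2 := by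
      simp only [Finset.prod_const, Finset.card_univ, Fintype.card_fin]
      rw [← pow_mul, ← pow_mul, ← pow_mul]
      congr 1
      ring
    rw [h2]
    refine Finset.prod_le_prod (fun i _ => Finset.prod_nonneg fun j _ => ez_nonneg _ _ _) fun i _ =>
      Finset.prod_le_prod (fun j _ => ez_nonneg _ _ _) fun j _ => ?_
    have hi : ((triv n i : ℕ) : ℝ) ≤ n := by
      have : triv n i ≤ n := i.isLt
      exact_mod_cast this
    have hj : ((triv n j : ℕ) : ℝ) ≤ n := by
      have : triv n j ≤ n := j.isLt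
      exact_mod_cast this
    have hi0 : (0 : ℝ) ≤ ((triv n i : ℕ) : ℝ) := Nat.cast_nonneg _
    have hj0 : (0 : ℝ) ≤ ((triv n j : ℕ) : ℝ) := Nat.cast_nonneg _
    by_cases hij : i = j
    · rw [← hij, ez_diag]
      refine pow_le_pow_left₀ (by have := sn_nonneg r (2 * (triv n i : ℝ)); positivity) ?_ 2
      refine (sn_le r _ (by positivity)).trans ?_
      apply div_le_div_of_nonneg_right _ hr'.le
      nlinarith
    · rw [ez_off r _ hij]
      have g1 := sn_le r |(triv n i : ℝ) - triv n j| (abs_nonneg _)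
      rw [sn_abs] at g1
      have g2 := sn_le r ((triv n i : ℝ) + triv n j) (by positivity)
      have g3 : |(triv n i : ℝ) - triv n j| ≤ 2 * n := by
        rw [abs_le]; constructor <;> linarith
      have g4 : Real.pi * |(triv n i : ℝ) - triv n j| / r ≤ 2 * Real.pi * n / r := by
        apply div_le_div_of_nonneg_right _ hr'.le
        nlinarith
      have g5 : Real.pi * ((triv n i : ℝ) + triv n j) / r ≤ 2 * Real.pi * n / r := by
        apply div_le_div_of_nonneg_right _ hr'.le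
        nlinarith
      have g6 := sn_nonneg r ((triv n i : ℝ) - triv n j)
      have g7 := sn_nonneg r ((triv n i : ℝ) + triv n j)
      calc 4 * (sn r ((triv n i : ℝ) - triv n j) * sn r ((triv n i : ℝ) + triv n j))
          = (2 * sn r ((triv n i : ℝ) - triv n j)) * (2 * sn r ((triv n i : ℝ) + triv n j)) := by ring
        _ ≤ (2 * Real.pi * n / r) * (2 * Real.pi * n / r) :=
            mul_le_mul (g1.trans g4) (g2.trans g5) (by positivity) (by positivity)
        _ = _ := by ring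
  have h3 : 0 ≤ V r (triv n) := norm_nonneg _
  exact (pow_le_pow_iff_left₀ h3 (by positivity) (by norm_num)).mp h1

theorem F_ge {n r : ℕ} (hn : 0 < n) (hr : 0 < r) {a b : Fin n → ℕ} (ha : a ∈ labels n r)
    (hb : b ∈ labels n r) (A B : ℕ) (hA : ∀ i, a i ≤ A) (hB : ∀ i, b i ≤ B)
    (hAB : 13 * n * (A * B) ≤ r) :
    1 / 2 * (r / (2 * Real.pi * n) : ℝ) ^ (n ^ 2) ≤ F r a b := by
  have hr' : (0 : ℝ) < r := by exact_mod_cast hr
  have hn' : (0 : ℝ) < n := by exact_mod_cast hn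
  have hpi := Real.pi_pos
  have hbm := mem_labels.mp hb
  have hVa := V_pos hr ha
  have hVb := V_pos hr hb
  have hdm : (0 : ℝ) < spn n b := by exact_mod_cast spn_pos b hbm.2 fun i => (hbm.1 i).1
  -- numerator
  have h1 : ‖altC b (fun i => w (2 * r) ^ a i)‖ = V r a * ‖sp n b (fun i => w (2 * r) ^ a i)‖ := by
    rw [altC_eq b _ hbm.2 fun j => w_ne _ _, norm_mul]; rfl
  have h2 : ∀ i, ‖w (2 * r) ^ a i - 1‖ ≤ Real.pi * A / r := by
    intro i
    have h3 := norm_w_sub_one_le (2 * r) (a i)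
    refine h3.trans ?_
    have : (a i : ℝ) ≤ A := by exact_mod_cast hA i
    push_cast
    rw [show 2 * Real.pi * (a i : ℝ) / (2 * r) = Real.pi * a i / r by field_simp]
    apply div_le_div_of_nonneg_right _ hr'.le
    exact mul_le_mul_of_nonneg_left this hpi.le
  have h3 := sp_close b (fun i => w (2 * r) ^ a i) _ (fun i => w_norm _ _) h2
  have h4 : Real.pi * A / r * (∑ i, (b i : ℝ)) ≤ 1 / 2 := by
    have h5 : ∑ i, (b i : ℝ) ≤ n * B := by
      calc ∑ i, (b i : ℝ) ≤ ∑ _i : Fin n, (B : ℝ) :=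
            Finset.sum_le_sum fun i _ => by exact_mod_cast hB i
        _ = n * B := by rw [Finset.sum_const, card_univ, Fintype.card_fin, nsmul_eq_mul]
    have h6 : (13 : ℝ) * n * (A * B) ≤ r := by exact_mod_cast hAB
    have h7 : (0 : ℝ) ≤ n * (A * B) := by positivity
    calc Real.pi * A / r * (∑ i, (b i : ℝ)) ≤ Real.pi * A / r * (n * B) :=
          mul_le_mul_of_nonneg_left h5 (by positivity)
      _ = Real.pi * (n * (A * B)) / r := by ring
      _ ≤ 1 / 2 := by
          rw [div_le_iff₀ hr']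
          nlinarith [Real.pi_lt_d2]
  have h5 : (spn n b : ℝ) / 2 ≤ ‖sp n b (fun i => w (2 * r) ^ a i)‖ := by
    have h6 : ‖(spn n b : ℂ)‖ = spn n b := by
      rw [Complex.norm_natCast]
    have h7 := norm_sub_norm_le ((spn n b : ℕ) : ℂ) (sp n b (fun i => w (2 * r) ^ a i))
    rw [h6, norm_sub_rev] at h7
    have h8 := mul_le_mul_of_nonneg_right h4 hdm.le
    linarith
  -- denominator
  have h6 : V r b ≤ (2 * Real.pi * n / r : ℝ) ^ (n ^ 2) * spn n b := by
    rw [V_eq_alt, altC_eq b _ hbm.2 fun j => w_ne _ _, norm_mul]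
    exact mul_le_mul (V_triv_le n r hr) (sp_norm_le b _ fun i => w_norm _ _) (norm_nonneg _)
      (by positivity)
  unfold F
  rw [h1, mul_div_mul_left _ _ hVa.ne', le_div_iff₀ hVb]
  calc 1 / 2 * (r / (2 * Real.pi * n) : ℝ) ^ (n ^ 2) * V r b
      ≤ 1 / 2 * (r / (2 * Real.pi * n) : ℝ) ^ (n ^ 2) *
        ((2 * Real.pi * n / r : ℝ) ^ (n ^ 2) * spn n b) :=
        mul_le_mul_of_nonneg_left h6 (by positivity)
    _ = 1 / 2 * ((r / (2 * Real.pi * n) : ℝ) * (2 * Real.pi * n / r : ℝ)) ^ (n ^ 2) * spn n b := by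
        rw [mul_pow]; ring
    _ = spn n b / 2 := by
        have : (r / (2 * Real.pi * n) : ℝ) * (2 * Real.pi * n / r : ℝ) = 1 := by field_simp
        rw [this, one_pow]; ring
    _ ≤ _ := h5

/-- A block of labels. -/
def block (n q : ℕ) : Finset (Fin n → ℕ) :=
  Fintype.piFinset fun i : Fin n => Ioc (((i : ℕ) + 1) * q) (((i : ℕ) + 2) * q)

theorem mem_block {n q : ℕ} {a : Fin n → ℕ} (h : a ∈ block n q) (i : Fin n) :
    ((i : ℕ) + 1) * q < a i ∧ a i ≤ ((i : ℕ) + 2) * q := by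
  unfold block at h
  rw [Fintype.mem_piFinset] at h
  exact mem_Ioc.mp (h i)

theorem block_card (n q : ℕ) : (block n q).card = q ^ n := by
  unfold block
  rw [Fintype.card_piFinset]
  have h1 : ∀ i : Fin n, (Ioc (((i : ℕ) + 1) * q) (((i : ℕ) + 2) * q)).card = q := by
    intro i
    rw [Nat.card_Ioc, ← Nat.sub_mul]
    simp
  rw [Finset.prod_congr rfl fun i _ => h1 i]
  simp

theorem block_le {n q : ℕ} {a : Fin n → ℕ} (h : a ∈ block n q) (i : Fin n) : a i ≤ (n + 1) * q :=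
  (mem_block h i).2.trans (Nat.mul_le_mul_right q (by have := i.isLt; omega))

theorem block_subset {n q r : ℕ} (hq : (n + 1) * q < r) : block n q ⊆ labels n r := by
  intro a ha
  rw [mem_labels]
  refine ⟨fun i => ⟨?_, lt_of_le_of_lt (block_le ha i) hq⟩, fun i j hij => ?_⟩
  · have := (mem_block ha i).1
    omega
  · have h1 := (mem_block ha i).2
    have h2 := (mem_block ha j).1
    have h3 : (i : ℕ) < j := hij
    exact lt_of_le_of_lt (h1.trans (Nat.mul_le_mul_right q (by omega))) h2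

/-- The lower bound for the sum of the squares. -/
theorem sum_F_ge {n : ℕ} (hn : 1 ≤ n) (S r : ℕ) (hr : 26 * (n + 1) ^ 3 * 2 ^ S ≤ r) :
    S * ((r / (26 * (n + 1) ^ 3) : ℝ) ^ n *
      (1 / 2 * (r / (2 * Real.pi * n) : ℝ) ^ (n ^ 2)) ^ 2) ≤
      ∑ a ∈ labels n r, ∑ b ∈ labels n r, F r a b ^ 2 := by
  classical
  obtain ⟨N, hNn⟩ : ∃ N, N = n + 1 := ⟨_, rfl⟩
  have hN0 : 0 < N := by omega
  have hN' : (0 : ℝ) < N := by exact_mod_cast hN0
  have hNc : ((n : ℝ) + 1) = N := by rw [hNn]; push_cast; ring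
  rw [← hNn] at hr
  rw [hNc]
  have hr0 : 0 < r := by
    have : 0 < 26 * N ^ 3 * 2 ^ S := by positivity
    omega
  have hr' : (0 : ℝ) < r := by exact_mod_cast hr0
  set c : ℝ := 1 / 2 * (r / (2 * Real.pi * n) : ℝ) ^ (n ^ 2) with hc
  have hpi := Real.pi_pos
  have hc0 : 0 ≤ c := by positivity
  let q' : ℕ → ℕ := fun s => r / (13 * N ^ 3 * 2 ^ s)
  have hN3 : 1 ≤ N ^ 3 := Nat.one_le_pow _ _ hN0
  have hblk : ∀ s ∈ range S, N * 2 ^ s < r ∧ N * q' s < r ∧ 13 * n * ((N * 2 ^ s) * (N * q' s)) ≤ r ∧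
      (r / (26 * N ^ 3) : ℝ) ≤ 2 ^ s * q' s := by
    intro s hs
    rw [mem_range] at hs
    have h2s : 2 ^ s ≤ 2 ^ S := Nat.pow_le_pow_right (by norm_num) hs.le
    have h2s1 : 1 ≤ 2 ^ s := Nat.one_le_two_pow
    have hdiv : 13 * N ^ 3 * 2 ^ s * q' s ≤ r := Nat.mul_div_le r _
    have hNN : N ≤ N ^ 3 := Nat.le_self_pow (by norm_num) N
    refine ⟨?_, ?_, ?_, ?_⟩
    · calc N * 2 ^ s ≤ N ^ 3 * 2 ^ S := Nat.mul_le_mul hNN h2s
        _ < 26 * N ^ 3 * 2 ^ S := by
          have : 0 < N ^ 3 * 2 ^ S := by positivity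
          nlinarith
        _ ≤ r := hr
    · by_cases hq : q' s = 0
      · rw [hq, mul_zero]; exact hr0
      · have hqpos : 0 < q' s := Nat.pos_of_ne_zero hq
        calc N * q' s < 13 * N ^ 3 * 2 ^ s * q' s := by
              apply Nat.mul_lt_mul_of_pos_right _ hqpos
              calc N ≤ N ^ 3 * 2 ^ s := by nlinarith
                _ < 13 * N ^ 3 * 2 ^ s := by
                  have : 0 < N ^ 3 * 2 ^ s := by positivity
                  nlinarith
          _ ≤ r := hdiv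
    · calc 13 * n * ((N * 2 ^ s) * (N * q' s)) ≤ 13 * N * ((N * 2 ^ s) * (N * q' s)) :=
            Nat.mul_le_mul_right _ (Nat.mul_le_mul_left _ (by omega))
        _ = 13 * N ^ 3 * 2 ^ s * q' s := by ring
        _ ≤ r := hdiv
    · have h3 : r < 13 * N ^ 3 * 2 ^ s * (q' s + 1) := Nat.lt_mul_div_succ r (by positivity)
      have h4 : (r : ℝ) < 13 * N ^ 3 * 2 ^ s * (q' s + 1) := by exact_mod_cast h3
      have h5 : (26 : ℝ) * N ^ 3 * 2 ^ s ≤ r := by
        have : 26 * N ^ 3 * 2 ^ s ≤ r := le_trans (Nat.mul_le_mul_left _ h2s) hr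
        exact_mod_cast this
      rw [div_le_iff₀ (by positivity)]
      nlinarith
  have hdisj : ∀ s ∈ range S, ∀ t ∈ range S, s ≠ t → Disjoint (block n (2 ^ s)) (block n (2 ^ t)) := by
    have key : ∀ s t : ℕ, s < t → Disjoint (block n (2 ^ s)) (block n (2 ^ t)) := by
      intro s t hst
      rw [Finset.disjoint_left]
      intro a ha ha'
      have h1 := (mem_block ha ⟨0, hn⟩).2
      have h2 := (mem_block ha' ⟨0, hn⟩).1
      simp only at h1 h2
      have h3 : 2 ^ (s + 1) ≤ 2 ^ t := Nat.pow_le_pow_right (by norm_num) hst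
      rw [pow_succ] at h3
      omega
    intro s _ t _ hst
    rcases lt_or_gt_of_ne hst with h | h
    · exact key s t h
    · exact (key t s h).symm
  have hf0 : ∀ a, 0 ≤ ∑ b ∈ labels n r, F r a b ^ 2 := fun a => Finset.sum_nonneg fun b _ => sq_nonneg _
  have hbl : ∀ {q : ℕ} {a : Fin n → ℕ}, a ∈ block n q → ∀ i, a i ≤ N * q := by
    intro q a ha i
    rw [hNn]
    exact block_le ha i
  have hbs : ∀ {q : ℕ}, N * q < r → block n q ⊆ labels n r := by
    intro q hq
    rw [hNn] at hq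
    exact block_subset hq
  calc (S : ℝ) * ((r / (26 * N ^ 3) : ℝ) ^ n * c ^ 2)
      = ∑ _s ∈ range S, (r / (26 * N ^ 3) : ℝ) ^ n * c ^ 2 := by
        rw [Finset.sum_const, card_range, nsmul_eq_mul]
    _ ≤ ∑ s ∈ range S, ∑ a ∈ block n (2 ^ s), ∑ b ∈ labels n r, F r a b ^ 2 := by
        refine Finset.sum_le_sum fun s hs => ?_
        obtain ⟨h1, h2, h3, h4⟩ := hblk s hs
        have h5 : ∀ a ∈ block n (2 ^ s), ((q' s : ℝ) ^ n) * c ^ 2 ≤ ∑ b ∈ labels n r, F r a b ^ 2 := by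
          intro a ha
          calc ((q' s : ℝ) ^ n) * c ^ 2 = ∑ _b ∈ block n (q' s), c ^ 2 := by
                rw [Finset.sum_const, block_card, nsmul_eq_mul]; push_cast; rfl
            _ ≤ ∑ b ∈ block n (q' s), F r a b ^ 2 := by
                refine Finset.sum_le_sum fun b hb => ?_
                exact pow_le_pow_left₀ hc0 (F_ge hn hr0 (hbs h1 ha) (hbs h2 hb)
                  (N * 2 ^ s) (N * q' s) (hbl ha) (hbl hb) h3) 2
            _ ≤ ∑ b ∈ labels n r, F r a b ^ 2 :=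
                Finset.sum_le_sum_of_subset_of_nonneg (hbs h2) fun b _ _ => sq_nonneg _
        calc (r / (26 * N ^ 3) : ℝ) ^ n * c ^ 2 ≤ ((2 : ℝ) ^ s * q' s) ^ n * c ^ 2 :=
              mul_le_mul_of_nonneg_right (pow_le_pow_left₀ (by positivity) h4 _) (by positivity)
          _ = ∑ _a ∈ block n (2 ^ s), ((q' s : ℝ) ^ n) * c ^ 2 := by
              rw [Finset.sum_const, block_card, nsmul_eq_mul, mul_pow]; push_cast; ring
          _ ≤ _ := Finset.sum_le_sum h5
    _ = ∑ a ∈ (range S).biUnion (fun s => block n (2 ^ s)), ∑ b ∈ labels n r, F r a b ^ 2 := by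
        rw [Finset.sum_biUnion]
        intro s hs t ht hst
        exact hdisj s hs t ht hst
    _ ≤ ∑ a ∈ labels n r, ∑ b ∈ labels n r, F r a b ^ 2 := by
        refine Finset.sum_le_sum_of_subset_of_nonneg ?_ fun a _ _ => hf0 a
        intro a ha
        obtain ⟨s, hs, ha⟩ := mem_biUnion.mp ha
        exact hbs (hblk s hs).1 ha

end H562SP
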