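import Mathlib
import Pool.Agent.H562.SP.Core

/-!
# Upper bound for the sum of the negative powers of the Weyl denominator
-/

set_option autoImplicit false

open Finset

namespace H562SP

open W719AEC (vd w w_norm hs norm_w_sub_one hs_nonneg hs_le)

/-- The term of the sum hs (2 r). -/
theorem hs_eq (r : ℕ) : hs (2 * r) = ∑ t ∈ Ioo 0 (2 * r), 1 / (2 * sn r t) := by
  unfold hs
  refine Finset.sum_congr rfl fun t _ => ?_
  rw [norm_w_sub_one]
  rfl

theorem sum_inj_le {r : ℕ} (S : Finset ℕ) (φ : ℕ → ℕ) (hφ : ∀ x ∈ S, φ x ∈ Ioo 0 (2 * r))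
    (hinj : Set.InjOn φ S) : ∑ x ∈ S, 1 / (2 * sn r (φ x)) ≤ hs (2 * r) := by
  classical
  rw [hs_eq, ← Finset.sum_image (f := fun t : ℕ => 1 / (2 * sn r t)) hinj]
  refine Finset.sum_le_sum_of_subset_of_nonneg ?_ fun t _ _ => ?_
  · intro t ht
    obtain ⟨x, hx, rfl⟩ := mem_image.mp ht
    exact hφ x hx
  · have := sn_nonneg r t
    positivity

/-- The one-variable weight. -/
noncomputable def T (r c x : ℕ) : ℝ :=
  if x = c then 0 else 1 / 2 * (1 / (2 * sn r ((c : ℝ) - x)) + 1 / (2 * sn r ((c : ℝ) + x)))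

theorem T_nonneg (r c x : ℕ) : 0 ≤ T r c x := by
  unfold T
  have h1 := sn_nonneg r ((c : ℝ) - x)
  have h2 := sn_nonneg r ((c : ℝ) + x)
  split_ifs <;> positivity

theorem sum_T_le {r c : ℕ} (hr : 0 < r) (hc : 1 ≤ c ∧ c < r) : ∑ x ∈ Ico 1 r, T r c x ≤ hs (2 * r) := by
  classical
  have h0 : ∑ x ∈ Ico 1 r, T r c x = ∑ x ∈ (Ico 1 r).erase c, T r c x := by
    rw [← Finset.add_sum_erase (Ico 1 r) (T r c) (mem_Ico.mpr hc)]
    have : T r c c = 0 := by unfold T; rw [if_pos rfl]
    rw [this, zero_add]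
  have h1 : ∀ x ∈ (Ico 1 r).erase c, T r c x =
      1 / 2 * (1 / (2 * sn r (((if x < c then x + 2 * r - c else x - c : ℕ)) : ℝ)) +
        1 / (2 * sn r ((c + x : ℕ) : ℝ))) := by
    intro x hx
    rw [mem_erase, mem_Ico] at hx
    unfold T
    rw [if_neg hx.1]
    congr 3
    · congr 1
      by_cases h : x < c
      · rw [if_pos h, show x + 2 * r - c = 2 * r - (c - x) by omega, Nat.cast_sub (by omega),
          Nat.cast_sub h.le]
        push_cast
        rw [sn_refl r hr]
      · rw [if_neg h, Nat.cast_sub (by omega), sn_sub_comm]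
    · push_cast; rfl
  rw [h0, Finset.sum_congr rfl h1, ← Finset.mul_sum, Finset.sum_add_distrib]
  have h2 := sum_inj_le (r := r) ((Ico 1 r).erase c) (fun x => if x < c then x + 2 * r - c else x - c) (by
    intro x hx
    rw [mem_erase, mem_Ico] at hx
    rw [mem_Ioo]
    split_ifs with h <;> omega) (by
    intro x hx y hy hxy
    rw [Finset.mem_coe, mem_erase, mem_Ico] at hx hy
    simp only at hxy
    split_ifs at hxy <;> omega)
  have h3 := sum_inj_le (r := r) ((Ico 1 r).erase c) (fun x => c + x) (by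
    intro x hx
    rw [mem_erase, mem_Ico] at hx
    rw [mem_Ioo]
    omega) (by
    intro x hx y hy hxy
    simp only at hxy
    omega)
  linarith

theorem sum_f_le {r : ℕ} : ∑ c ∈ Ico 1 r, 1 / (2 * sn r (2 * (c : ℝ))) ≤ hs (2 * r) := by
  have h3 := sum_inj_le (r := r) (Ico 1 r) (fun x => 2 * x) (by
    intro x hx
    rw [mem_Ico] at hx
    rw [mem_Ioo]
    omega) (by
    intro x hx y hy hxy
    simp only at hxy
    omega)
  refine le_trans (le_of_eq ?_) h3
  refine Finset.sum_congr rfl fun c _ => ?_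
  push_cast
  rfl

/-- The weight with centre i. -/
noncomputable def Y {n : ℕ} (r : ℕ) (a : Fin n → ℕ) (i : Fin n) : ℝ :=
  1 / (2 * sn r (2 * (a i : ℝ))) * ∏ j ∈ univ.erase i, T r (a i) (a j)

theorem Y_nonneg {n : ℕ} (r : ℕ) (a : Fin n → ℕ) (i : Fin n) : 0 ≤ Y r a i := by
  unfold Y
  have h1 := sn_nonneg r (2 * (a i : ℝ))
  have h2 : 0 ≤ ∏ j ∈ univ.erase i, T r (a i) (a j) := Finset.prod_nonneg fun j _ => T_nonneg _ _ _
  positivity

theorem sum_Y_le {n r : ℕ} (hr : 0 < r) (i : Fin n) : ∑ a ∈ labels n r, Y r a i ≤ hs (2 * r) ^ n := by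
  classical
  have hhs := hs_nonneg (2 * r)
  have hn : n - 1 + 1 = n := by have := i.isLt; omega
  calc ∑ a ∈ labels n r, Y r a i
      ≤ ∑ a ∈ Fintype.piFinset (fun _ : Fin n => Ico 1 r), Y r a i := by
        refine Finset.sum_le_sum_of_subset_of_nonneg (Finset.filter_subset _ _) fun a _ _ => Y_nonneg _ _ _
    _ = ∑ c ∈ Ico 1 r, ∑ a ∈ (Fintype.piFinset (fun _ : Fin n => Ico 1 r)).filter (fun a => a i = c),
          Y r a i := by
        rw [Finset.sum_fiberwise_of_maps_to]
        intro a ha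
        exact (Fintype.mem_piFinset.mp ha) i
    _ ≤ ∑ c ∈ Ico 1 r, 1 / (2 * sn r (2 * (c : ℝ))) * hs (2 * r) ^ (n - 1) := by
        refine Finset.sum_le_sum fun c hc => ?_
        have hset : (Fintype.piFinset (fun _ : Fin n => Ico 1 r)).filter (fun a => a i = c) =
            Fintype.piFinset (fun j : Fin n => if j = i then {c} else Ico 1 r) := by
          ext a
          rw [mem_filter, Fintype.mem_piFinset, Fintype.mem_piFinset]
          constructor
          · rintro ⟨h1, h2⟩ j
            by_cases hj : j = i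
            · rw [if_pos hj, hj, mem_singleton]; exact h2
            · rw [if_neg hj]; exact h1 j
          · intro h
            have hi := h i
            rw [if_pos rfl, mem_singleton] at hi
            refine ⟨fun j => ?_, hi⟩
            by_cases hj : j = i
            · rw [hj, hi]; exact hc
            · have := h j
              rw [if_neg hj] at this
              exact this
        have hval : ∀ a ∈ Fintype.piFinset (fun j : Fin n => if j = i then ({c} : Finset ℕ) else Ico 1 r),
            Y r a i = ∏ j, (fun (j : Fin n) (x : ℕ) =>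
              if j = i then 1 / (2 * sn r (2 * (c : ℝ))) else T r c x) j (a j) := by
          intro a ha
          rw [Fintype.mem_piFinset] at ha
          have hi := ha i
          rw [if_pos rfl, mem_singleton] at hi
          unfold Y
          rw [← Finset.mul_prod_erase univ _ (mem_univ i)]
          simp only [if_true, hi]
          congr 1
          refine Finset.prod_congr rfl fun j hj => ?_
          rw [if_neg (mem_erase.mp hj).1]
        rw [hset, Finset.sum_congr rfl hval]
        have hps := Finset.prod_univ_sum (fun j : Fin n => if j = i then ({c} : Finset ℕ) else Ico 1 r)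
          (fun (j : Fin n) (x : ℕ) => if j = i then 1 / (2 * sn r (2 * (c : ℝ))) else T r c x)
        rw [← hps, ← Finset.mul_prod_erase univ _ (mem_univ i)]
        simp only [if_true, Finset.sum_singleton]
        have hf : 0 ≤ 1 / (2 * sn r (2 * (c : ℝ))) := by
          have := sn_nonneg r (2 * (c : ℝ))
          positivity
        refine mul_le_mul_of_nonneg_left ?_ hf
        have h1 : ∀ j ∈ univ.erase i, ∑ x ∈ (if j = i then ({c} : Finset ℕ) else Ico 1 r),
            (if j = i then 1 / (2 * sn r (2 * (c : ℝ))) else T r c x) = ∑ x ∈ Ico 1 r, T r c x := by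
          intro j hj
          have hji := (mem_erase.mp hj).1
          simp only [if_neg hji]
        rw [Finset.prod_congr rfl h1, Finset.prod_const, Finset.card_erase_of_mem (mem_univ i),
          Finset.card_univ, Fintype.card_fin]
        exact pow_le_pow_left₀ (Finset.sum_nonneg fun x _ => T_nonneg _ _ _)
          (sum_T_le hr (mem_Ico.mp hc)) _
    _ ≤ hs (2 * r) * hs (2 * r) ^ (n - 1) := by
        rw [← Finset.sum_mul]
        exact mul_le_mul_of_nonneg_right sum_f_le (pow_nonneg hhs _)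
    _ = hs (2 * r) ^ n := by
        rw [← pow_succ', hn]

theorem V_rpow_le {n r : ℕ} (hn : 0 < n) (hr : 0 < r) {a : Fin n → ℕ} (ha : a ∈ labels n r) :
    (V r a) ^ (-(1 / (n : ℝ))) ≤ ∑ i : Fin n, 1 / (n : ℝ) * Y r a i := by
  have hn' : (0 : ℝ) < n := by exact_mod_cast hn
  have hr' : (0 : ℝ) < r := by exact_mod_cast hr
  have hV := V_pos hr ha
  have ham := mem_labels.mp ha
  have hp : (0 : ℝ) < 1 / r := by positivity
  have hY0 : 0 ≤ ∏ i, Y r a i := Finset.prod_nonneg fun i _ => Y_nonneg _ _ _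
  have h1 : (V r a)⁻¹ ≤ ∏ i, Y r a i := by
    have h2 : ((V r a)⁻¹) ^ 2 ≤ (∏ i, Y r a i) ^ 2 := by
      rw [inv_pow, ← V_sq, ← Finset.prod_inv_distrib, ← Finset.prod_pow]
      refine Finset.prod_le_prod (fun i _ => inv_nonneg.mpr (Finset.prod_nonneg fun j _ => ez_nonneg _ _ _))
        fun i _ => ?_
      unfold Y
      rw [mul_pow, ← Finset.prod_pow, ← Finset.mul_prod_erase univ _ (mem_univ i), mul_inv, ez_diag,
        one_div, inv_pow]
      refine mul_le_mul_of_nonneg_left ?_ (by positivity)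
      rw [← Finset.prod_inv_distrib]
      refine Finset.prod_le_prod (fun j _ => inv_nonneg.mpr (ez_nonneg _ _ _)) fun j hj => ?_
      have hji : j ≠ i := (mem_erase.mp hj).1
      have hne : a i ≠ a j := fun h => hji (labels_inj ha h).symm
      rw [ez_off r a hji.symm]
      unfold T
      rw [if_neg hne.symm]
      have g1 := lt_of_lt_of_le hp (sn_label_diff hr (ham.1 i) (ham.1 j) hne)
      have g2 := lt_of_lt_of_le hp (sn_label_sum hr (ham.1 i) (ham.1 j))
      have e1 : (4 * (sn r ((a i : ℝ) - a j) * sn r ((a i : ℝ) + a j)))⁻¹ =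
          (1 / (2 * sn r ((a i : ℝ) - a j))) * (1 / (2 * sn r ((a i : ℝ) + a j))) := by
        field_simp
        norm_num
      rw [e1]
      nlinarith [sq_nonneg ((1 / (2 * sn r ((a i : ℝ) - a j))) - (1 / (2 * sn r ((a i : ℝ) + a j))))]
    exact (pow_le_pow_iff_left₀ (inv_nonneg.mpr hV.le) hY0 (by norm_num)).mp h2
  have hag := Real.geom_mean_le_arith_mean_weighted univ (fun _ : Fin n => 1 / (n : ℝ))
    (fun i => Y r a i) (fun i _ => by positivity)
    (by rw [Finset.sum_const, card_univ, Fintype.card_fin, nsmul_eq_mul]; field_simp)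
    (fun i _ => Y_nonneg _ _ _)
  refine le_trans ?_ hag
  rw [Real.finsetProd_rpow _ _ (fun i _ => Y_nonneg _ _ _), Real.rpow_neg hV.le, ← Real.inv_rpow hV.le]
  exact Real.rpow_le_rpow (inv_nonneg.mpr hV.le) h1 (by positivity)

theorem sum_V_rpow_le {n r : ℕ} (hn : 0 < n) (hr : 0 < r) :
    ∑ a ∈ labels n r, (V r a) ^ (-(1 / (n : ℝ))) ≤ hs (2 * r) ^ n := by
  have hn' : (0 : ℝ) < n := by exact_mod_cast hn
  calc ∑ a ∈ labels n r, (V r a) ^ (-(1 / (n : ℝ)))
      ≤ ∑ a ∈ labels n r, ∑ i : Fin n, 1 / (n : ℝ) * Y r a i :=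
        Finset.sum_le_sum fun a ha => V_rpow_le hn hr ha
    _ = ∑ i : Fin n, 1 / (n : ℝ) * ∑ a ∈ labels n r, Y r a i := by
        rw [Finset.sum_comm]
        exact Finset.sum_congr rfl fun i _ => by rw [Finset.mul_sum]
    _ ≤ ∑ i : Fin n, 1 / (n : ℝ) * hs (2 * r) ^ n :=
        Finset.sum_le_sum fun i _ => mul_le_mul_of_nonneg_left (sum_Y_le hr i) (by positivity)
    _ = hs (2 * r) ^ n := by
        rw [Finset.sum_const, card_univ, Fintype.card_fin, nsmul_eq_mul]
        field_simp

theorem hs_two_le {r : ℕ} (hr : 1 ≤ r) : hs (2 * r) ≤ 2 * (r * (1 + Real.log r)) := by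
  have hr' : (1 : ℝ) ≤ r := by exact_mod_cast hr
  have h1 := hs_le (2 * r) (by omega)
  have h2 : Real.log ((2 * r : ℕ) : ℝ) = Real.log 2 + Real.log r := by
    push_cast
    rw [Real.log_mul (by norm_num) (by linarith)]
  rw [h2] at h1
  have h3 : Real.log 2 ≤ 1 := by have := Real.log_two_lt_d9; linarith
  have h4 : 0 ≤ Real.log r := Real.log_nonneg hr'
  push_cast at h1
  refine h1.trans ?_
  have h5 : (2 * (r : ℝ)) / 2 = r := by ring
  rw [h5]
  nlinarith

end H562SP
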