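import Mathlib
import Pool.Graph.R_seed8.W719.AEC.Defs
import Pool.Agent.H562.SP.Low
import Pool.Agent.H562.SP.Up

/-!
# Sp(n) quantum invariants of graph manifolds
-/

set_option autoImplicit false

open Finset

namespace H562SP

open W719AEC (PlumbingGraph)

/-- The S-matrix of Sp(n) at level r - n - 1 (Kac-Peterson formula): for the labels a = λ + ρ, b = μ + ρ,
S_{λμ} = (-1)^(n(n-1)/2) (2 / r)^(n/2) det (sin (π a_i b_j / r)). It is real and symmetric (every
representation of Sp(n) is self-dual). -/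
noncomputable def Smat (n r : ℕ) (a b : Fin n → ℕ) : ℝ :=
  (-1) ^ (n * (n - 1) / 2) * Real.sqrt (2 / r) ^ n *
    Matrix.det (Matrix.of fun i j : Fin n => Real.sin (Real.pi * ((a i : ℝ) * (b j : ℝ)) / r))

/-- The twist θ_λ = exp (π i (|λ + ρ|^2 - |ρ|^2) / r), where |λ + ρ|^2 = (1/2) ∑ a_i^2 and
|ρ|^2 = n (n+1) (2n+1) / 12. -/
noncomputable def twist (n r : ℕ) (a : Fin n → ℕ) : ℂ :=
  Complex.exp (Real.pi * Complex.I *
    ((∑ i, (a i : ℂ) ^ 2) / 2 - (n : ℂ) * (n + 1) * (2 * n + 1) / 12) / r)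

/-- The level r - n - 1 quantum Sp(n) invariant (Witten's normalisation: 1 on S^1 x S^2 and S_{00} on S^3)
of the closed oriented 3-manifold of the plumbing graph Γ, up to a factor of absolute value 1 that depends
on the 2-framing: the state sum over all colourings x of the vertices by labels of
∏_v θ_(x v)^(euler v) S_{0,x v}^(2 - 2 genus v - degree v) times ∏_e S_{x (src e), x (tgt e)} (for Sp(n)
the signs of the edges play no role, as S_{λμ*} = S_{λμ}). -/
noncomputable def Z {v m : ℕ} (Γ : PlumbingGraph v m) (n r : ℕ) : ℂ :=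
  ∑ x ∈ Fintype.piFinset (fun _ : Fin v => labels n r),
    (∏ u, twist n r (x u) ^ Γ.euler u *
      (Smat n r (triv n) (x u) : ℂ) ^ (2 - 2 * (Γ.genus u : ℤ) - (Γ.degree u : ℤ))) *
    ∏ e, (Smat n r (x (Γ.src e)) (x (Γ.tgt e)) : ℂ)

end H562SP
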