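import Mathlib
import Pool.Graph.R_seed8.W719.AEC.Main
import Pool.Agent.H562.SP.Defs

/-!
# Growth of the Sp(n) invariants of the graph manifold `doubleEdge`
-/

set_option autoImplicit false

open Finset Filter Topology

namespace H562SP

open W719AEC (vd w w_norm hs hs_nonneg sum_piFinset_two deg_zero deg_one doubleEdge PlumbingGraph
  not_hasExpansion)

theorem entry_eq (r a b : ℕ) : (w (2 * r) ^ a) ^ b - (w (2 * r) ^ a)⁻¹ ^ b =
    (-2 * Complex.I) * ((Real.sin (Real.pi * ((a : ℝ) * (b : ℝ)) / r) : ℝ) : ℂ) := by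
  have h1 : (w (2 * r) ^ a) ^ b = Complex.exp (-(((Real.pi * ((a : ℝ) * (b : ℝ)) / r : ℝ) : ℂ) * Complex.I)) := by
    unfold w
    rw [← Complex.exp_nat_mul, ← Complex.exp_nat_mul]
    congr 1
    push_cast
    by_cases hr : (r : ℂ) = 0
    · rw [hr]; simp
    · field_simp
  rw [inv_pow, h1, Complex.exp_neg, inv_inv, ← Complex.exp_neg, Complex.ofReal_sin, Complex.sin]
  ring_nf
  rw [Complex.I_sq]
  ring

theorem altC_norm {n : ℕ} (r : ℕ) (a b : Fin n → ℕ) : ‖altC b (fun i => w (2 * r) ^ a i)‖ =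
    2 ^ n * |Matrix.det (Matrix.of fun i j : Fin n =>
      Real.sin (Real.pi * ((a i : ℝ) * (b j : ℝ)) / r))| := by
  have h1 : altC b (fun i => w (2 * r) ^ a i) = (-2 * Complex.I) ^ n *
      ((Matrix.det (Matrix.of fun i j : Fin n =>
        Real.sin (Real.pi * ((a i : ℝ) * (b j : ℝ)) / r)) : ℝ) : ℂ) := by
    unfold altC
    rw [← Matrix.det_transpose]
    have h2 : (Matrix.of fun i j : Fin n => (w (2 * r) ^ a j) ^ b i - (w (2 * r) ^ a j)⁻¹ ^ b i).transpose =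
        (-2 * Complex.I) • ((Matrix.of fun i j : Fin n =>
        Real.sin (Real.pi * ((a i : ℝ) * (b j : ℝ)) / r)).map (Complex.ofRealHom)) := by
      ext i j
      simp only [Matrix.transpose_apply, Matrix.of_apply, Matrix.smul_apply, Matrix.map_apply, smul_eq_mul]
      rw [entry_eq]
      rfl
    rw [h2, Matrix.det_smul, Fintype.card_fin, ← RingHom.mapMatrix_apply, ← RingHom.map_det]
    rfl
  rw [h1, norm_mul, norm_pow, Complex.norm_real, Real.norm_eq_abs, norm_mul, norm_neg, Complex.norm_I, mul_one]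
  norm_num

/-- κ² = (1 / (2 r))^n. -/
theorem Smat_sq {n : ℕ} (r : ℕ) (a b : Fin n → ℕ) :
    Smat n r a b ^ 2 = (1 / (2 * r) : ℝ) ^ n * ‖altC b (fun i => w (2 * r) ^ a i)‖ ^ 2 := by
  rw [altC_norm]
  unfold Smat
  have h1 : (((-1 : ℝ)) ^ (n * (n - 1) / 2)) ^ 2 = 1 := by
    rw [← pow_mul, mul_comm, pow_mul]; norm_num
  have h2 : (Real.sqrt (2 / r) ^ n) ^ 2 = (2 / r : ℝ) ^ n := by
    rw [← pow_mul, mul_comm, pow_mul, Real.sq_sqrt (by positivity)]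
  rw [mul_pow, mul_pow, mul_pow, h1, h2, sq_abs, one_mul, ← mul_assoc, ← pow_mul, mul_comm n 2, pow_mul,
    ← mul_pow]
  congr 2
  ring

theorem Smat_triv_sq {n : ℕ} (r : ℕ) (b : Fin n → ℕ) :
    Smat n r (triv n) b ^ 2 = (1 / (2 * r) : ℝ) ^ n * V r b ^ 2 := by
  rw [Smat_sq, V_eq_alt]

theorem Z_eq (n r : ℕ) (hr : 0 < r) :
    Z doubleEdge n r =
      (((2 * r : ℝ) ^ n * ∑ a ∈ labels n r, ∑ b ∈ labels n r, F r a b ^ 2 : ℝ) : ℂ) := by
  have h1 : Z doubleEdge n r = ∑ x ∈ Fintype.piFinset (fun _ : Fin 2 => labels n r),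
      (fun a b : Fin n → ℕ => (Smat n r (triv n) a : ℂ) ^ (-2 : ℤ) * (Smat n r (triv n) b : ℂ) ^ (-2 : ℤ) *
        ((Smat n r a b : ℂ) * (Smat n r a b : ℂ))) (x 0) (x 1) := by
    unfold Z
    refine Finset.sum_congr rfl fun x _ => ?_
    rw [Fin.prod_univ_two, Fin.prod_univ_two, deg_zero, deg_one]
    have e0 : doubleEdge.euler 0 = 0 := rfl
    have e1 : doubleEdge.euler 1 = 0 := rfl
    have g0 : doubleEdge.genus 0 = 1 := rfl
    have g1 : doubleEdge.genus 1 = 1 := rfl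
    have s0 : doubleEdge.src 0 = 0 := rfl
    have s1 : doubleEdge.src 1 = 0 := rfl
    have t0 : doubleEdge.tgt 0 = 1 := rfl
    have t1 : doubleEdge.tgt 1 = 1 := rfl
    rw [e0, e1, g0, g1, s0, s1, t0, t1]
    norm_num
  have h2 := sum_piFinset_two (labels n r) (fun a b : Fin n → ℕ => (Smat n r (triv n) a : ℂ) ^ (-2 : ℤ) *
    (Smat n r (triv n) b : ℂ) ^ (-2 : ℤ) * ((Smat n r a b : ℂ) * (Smat n r a b : ℂ)))
  refine (h1.trans h2).trans ?_
  rw [Finset.mul_sum, Complex.ofReal_sum]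
  refine Finset.sum_congr rfl fun a ha => ?_
  rw [Finset.mul_sum, Complex.ofReal_sum]
  refine Finset.sum_congr rfl fun b hb => ?_
  have hVa := V_pos hr ha
  have hVb := V_pos hr hb
  have hr' : (0 : ℝ) < r := by exact_mod_cast hr
  have h3 : (Smat n r (triv n) a : ℂ) ^ (-2 : ℤ) * (Smat n r (triv n) b : ℂ) ^ (-2 : ℤ) *
      ((Smat n r a b : ℂ) * (Smat n r a b : ℂ)) =
      (((Smat n r (triv n) a ^ 2)⁻¹ * (Smat n r (triv n) b ^ 2)⁻¹ * Smat n r a b ^ 2 : ℝ) : ℂ) := by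
    rw [zpow_neg, zpow_neg]
    push_cast
    have h5 : ∀ x : ℂ, x ^ (2 : ℤ) = x ^ 2 := fun x => by norm_cast
    rw [h5, h5, sq (Smat n r a b : ℂ)]
  rw [h3, Smat_triv_sq, Smat_triv_sq, Smat_sq]
  congr 1
  unfold F
  have h6 : (1 / (2 * r) : ℝ) ^ n * (2 * r : ℝ) ^ n = 1 := by
    rw [← mul_pow]
    rw [one_div, inv_mul_cancel₀ (by positivity), one_pow]
  have h7 : (0 : ℝ) < (1 / (2 * r) : ℝ) ^ n := by positivity
  generalize (1 / (2 * r) : ℝ) ^ n = k at h6 h7 ⊢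
  have h8 : (2 * r : ℝ) ^ n = k⁻¹ := by
    rw [eq_comm, inv_eq_iff_eq_inv, eq_comm, inv_eq_of_mul_eq_one_left h6]
  rw [h8]
  field_simp

/-- The upper bound for the sum of squares. -/
theorem sum_F_le {n : ℕ} (hn : 1 ≤ n) : ∃ C : ℝ, 0 ≤ C ∧ ∀ r : ℕ, 1 ≤ r →
    ∑ a ∈ labels n r, ∑ b ∈ labels n r, F r a b ^ 2 ≤
      C * ((r : ℝ) ^ (2 * n ^ 2 + n) * (1 + Real.log r) ^ (2 * n)) := by
  have hn0 : 0 < n := hn
  have hn' : (1 : ℝ) ≤ n := by exact_mod_cast hn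
  set p : ℝ := 1 / (n : ℝ) with hp
  have hp0 : 0 < p := by positivity
  have hp1 : p ≤ 1 := by rw [hp, div_le_one (by linarith)]; exact hn'
  have hf : (0 : ℝ) ≤ (n.factorial : ℝ) := Nat.cast_nonneg _
  have hf2 : (0 : ℝ) ≤ (n.factorial : ℝ) * 2 ^ n := by positivity
  set A : ℝ := ((n.factorial : ℝ) * ((n + 1 : ℕ) : ℝ) ^ (n ^ 2)) ^ (2 - p) *
    ((n.factorial : ℝ) * 2 ^ n) ^ p with hA
  have hA0 : 0 ≤ A := mul_nonneg (Real.rpow_nonneg (by positivity) _) (Real.rpow_nonneg hf2 _)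
  refine ⟨A * 2 ^ (2 * n), by positivity, fun r hr => ?_⟩
  have hr' : (1 : ℝ) ≤ r := by exact_mod_cast hr
  have hr0 : 0 < r := hr
  have hlog : 0 ≤ Real.log r := Real.log_nonneg hr'
  set M : ℝ := (n.factorial : ℝ) * (((n + 1 : ℕ) : ℝ) * r) ^ (n ^ 2) with hM
  have hM0 : 0 ≤ M := by positivity
  have hterm : ∀ a ∈ labels n r, ∀ b ∈ labels n r, F r a b ^ 2 ≤
      M ^ (2 - p) * ((n.factorial : ℝ) * 2 ^ n) ^ p * ((V r a) ^ (-p) * (V r b) ^ (-p)) := by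
    intro a ha b hb
    have h0 := F_nonneg r a b
    have h1 := F_le hr0 ha hb
    have h2 := F_le' hr0 ha hb
    have hVa := V_pos hr0 ha
    have hVb := V_pos hr0 hb
    have h3 : F r a b ^ 2 = F r a b ^ (2 - p) * F r a b ^ p := by
      rw [← Real.rpow_add_of_nonneg h0 (by linarith) hp0.le, ← Real.rpow_natCast]
      congr 1
      push_cast
      ring
    have h4 : F r a b ^ (2 - p) ≤ M ^ (2 - p) := Real.rpow_le_rpow h0 h1 (by linarith)
    have h5 : F r a b ^ p ≤ (((n.factorial : ℝ) * 2 ^ n) / (V r a * V r b)) ^ p :=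
      Real.rpow_le_rpow h0 h2 hp0.le
    have h6 : (((n.factorial : ℝ) * 2 ^ n) / (V r a * V r b)) ^ p =
        ((n.factorial : ℝ) * 2 ^ n) ^ p * ((V r a) ^ (-p) * (V r b) ^ (-p)) := by
      rw [Real.div_rpow hf2 (by positivity), Real.mul_rpow hVa.le hVb.le, Real.rpow_neg hVa.le,
        Real.rpow_neg hVb.le, div_eq_mul_inv, mul_inv]
    rw [h3]
    calc F r a b ^ (2 - p) * F r a b ^ p ≤ M ^ (2 - p) *
          (((n.factorial : ℝ) * 2 ^ n) ^ p * ((V r a) ^ (-p) * (V r b) ^ (-p))) :=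
          mul_le_mul h4 (h6 ▸ h5) (Real.rpow_nonneg h0 _) (Real.rpow_nonneg hM0 _)
      _ = _ := by ring
  have hsum := sum_V_rpow_le hn0 hr0 (r := r)
  have hhs := hs_two_le hr
  have hhs0 := hs_nonneg (2 * r)
  have hS0 : 0 ≤ ∑ a ∈ labels n r, (V r a) ^ (-p) :=
    Finset.sum_nonneg fun a ha => Real.rpow_nonneg (V_pos hr0 ha).le _
  have hMp : M ^ (2 - p) = ((n.factorial : ℝ) * ((n + 1 : ℕ) : ℝ) ^ (n ^ 2)) ^ (2 - p) *
      (r : ℝ) ^ (2 * n ^ 2 - n) := by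
    have h1 : M = ((n.factorial : ℝ) * ((n + 1 : ℕ) : ℝ) ^ (n ^ 2)) * (r : ℝ) ^ (n ^ 2) := by
      rw [hM, mul_pow]; ring
    rw [h1, Real.mul_rpow (by positivity) (by positivity)]
    congr 1
    rw [← Real.rpow_natCast, ← Real.rpow_mul (by positivity), ← Real.rpow_natCast _ (2 * n ^ 2 - n)]
    congr 1
    rw [Nat.cast_sub (by nlinarith), hp]
    push_cast
    field_simp
  calc ∑ a ∈ labels n r, ∑ b ∈ labels n r, F r a b ^ 2
      ≤ ∑ a ∈ labels n r, ∑ b ∈ labels n r,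
        M ^ (2 - p) * ((n.factorial : ℝ) * 2 ^ n) ^ p * ((V r a) ^ (-p) * (V r b) ^ (-p)) :=
        Finset.sum_le_sum fun a ha => Finset.sum_le_sum fun b hb => hterm a ha b hb
    _ = M ^ (2 - p) * ((n.factorial : ℝ) * 2 ^ n) ^ p * (∑ a ∈ labels n r, (V r a) ^ (-p)) ^ 2 := by
        rw [sq, Finset.sum_mul_sum, Finset.mul_sum]
        refine Finset.sum_congr rfl fun a _ => ?_
        rw [Finset.mul_sum]
    _ ≤ M ^ (2 - p) * ((n.factorial : ℝ) * 2 ^ n) ^ p * ((2 * (r * (1 + Real.log r))) ^ n) ^ 2 := by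
        refine mul_le_mul_of_nonneg_left (pow_le_pow_left₀ hS0 ?_ 2) ?_
        · exact hsum.trans (pow_le_pow_left₀ hhs0 hhs _)
        · exact mul_nonneg (Real.rpow_nonneg hM0 _) (Real.rpow_nonneg hf2 _)
    _ = _ := by
        rw [hMp, ← pow_mul, mul_comm n 2, mul_pow, mul_pow, hA]
        have h9 : (r : ℝ) ^ (2 * n ^ 2 + n) = (r : ℝ) ^ (2 * n ^ 2 - n) * (r : ℝ) ^ (2 * n) := by
          rw [← pow_add]
          congr 1
          have : n ≤ 2 * n ^ 2 := by nlinarith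
          omega
        rw [h9]
        ring

/-- |Z| ≤ C r^(2n^2+2n) (1 + log r)^(2n). -/
theorem Z_upper (n : ℕ) (hn : 1 ≤ n) : ∃ C : ℝ, ∀ r : ℕ, 1 ≤ r →
    ‖Z doubleEdge n r‖ ≤ C * ((r : ℝ) ^ ((2 * n ^ 2 + 2 * n : ℕ) : ℝ) * (1 + Real.log r) ^ (2 * n)) := by
  obtain ⟨C, hC0, hC⟩ := sum_F_le hn
  refine ⟨2 ^ n * C, fun r hr => ?_⟩
  have hr' : (1 : ℝ) ≤ r := by exact_mod_cast hr
  rw [Z_eq n r (by omega), Complex.norm_real, Real.norm_eq_abs, abs_of_nonneg (by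
    refine mul_nonneg (by positivity) (Finset.sum_nonneg fun a _ => Finset.sum_nonneg fun b _ => sq_nonneg _))]
  have h := hC r hr
  have h2 : (r : ℝ) ^ ((2 * n ^ 2 + 2 * n : ℕ) : ℝ) = (r : ℝ) ^ n * (r : ℝ) ^ (2 * n ^ 2 + n) := by
    rw [Real.rpow_natCast, ← pow_add]
    congr 1
    omega
  rw [h2]
  calc (2 * r : ℝ) ^ n * ∑ a ∈ labels n r, ∑ b ∈ labels n r, F r a b ^ 2
      ≤ (2 * r : ℝ) ^ n * (C * ((r : ℝ) ^ (2 * n ^ 2 + n) * (1 + Real.log r) ^ (2 * n))) :=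
        mul_le_mul_of_nonneg_left h (by positivity)
    _ = _ := by rw [mul_pow]; ring

/-- The constant of the lower bound. -/
noncomputable def cst (n : ℕ) : ℝ := 2 ^ n * ((1 / (26 * (n + 1) ^ 3) : ℝ) ^ n *
    (1 / 2 * (1 / (2 * Real.pi * n) : ℝ) ^ (n ^ 2)) ^ 2)

theorem cst_pos (n : ℕ) (hn : 1 ≤ n) : 0 < cst n := by
  have hn' : (0 : ℝ) < n := by exact_mod_cast hn
  have hpi := Real.pi_pos
  unfold cst
  positivity

/-- S c r^(2n^2+2n) ≤ |Z| as soon as 26 (n+1)^3 2^S ≤ r. -/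
theorem Z_ge (n : ℕ) (hn : 1 ≤ n) (S r : ℕ) (hr : 26 * (n + 1) ^ 3 * 2 ^ S ≤ r) :
    (S * cst n) * (r : ℝ) ^ (2 * n ^ 2 + 2 * n) ≤ ‖Z doubleEdge n r‖ := by
  have hn' : (0 : ℝ) < n := by exact_mod_cast hn
  have hpi := Real.pi_pos
  have hr1 : 1 ≤ r := by
    have : 0 < 26 * (n + 1) ^ 3 * 2 ^ S := by positivity
    omega
  have hr' : (0 : ℝ) < r := by exact_mod_cast hr1
  have h := sum_F_ge hn S r hr
  rw [Z_eq n r (by omega), Complex.norm_real, Real.norm_eq_abs, abs_of_nonneg (by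
    refine mul_nonneg (by positivity) (Finset.sum_nonneg fun a _ => Finset.sum_nonneg fun b _ => sq_nonneg _))]
  have h2 : (r : ℝ) ^ (2 * n ^ 2 + 2 * n) =
      (r : ℝ) ^ n * ((r : ℝ) ^ n * ((r : ℝ) ^ (n ^ 2)) ^ 2) := by
    rw [← pow_mul, ← pow_add, ← pow_add]
    congr 1
    ring
  rw [h2]
  calc (S * cst n) * ((r : ℝ) ^ n * ((r : ℝ) ^ n * ((r : ℝ) ^ (n ^ 2)) ^ 2))
      = (2 * r : ℝ) ^ n * (S * ((r / (26 * (n + 1) ^ 3) : ℝ) ^ n *
          (1 / 2 * (r / (2 * Real.pi * n) : ℝ) ^ (n ^ 2)) ^ 2)) := by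
        unfold cst
        rw [show (r / (26 * (n + 1) ^ 3) : ℝ) = 1 / (26 * (n + 1) ^ 3) * r by ring,
          show (r / (2 * Real.pi * n) : ℝ) = 1 / (2 * Real.pi * n) * r by ring, mul_pow _ (r : ℝ),
          mul_pow _ (r : ℝ), mul_pow _ (r : ℝ)]
        ring
    _ ≤ _ := mul_le_mul_of_nonneg_left h (by positivity)

/-- |Z| / r^(2n^2+2n) → ∞. -/
theorem Z_lower (n : ℕ) (hn : 1 ≤ n) :
    Tendsto (fun r : ℕ => ‖Z doubleEdge n r‖ / (r : ℝ) ^ ((2 * n ^ 2 + 2 * n : ℕ) : ℝ)) atTop atTop := by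
  have hc0 := cst_pos n hn
  rw [tendsto_atTop]
  intro K
  obtain ⟨S, hS⟩ := exists_nat_ge (K / cst n)
  filter_upwards [eventually_ge_atTop (26 * (n + 1) ^ 3 * 2 ^ S)] with r hr
  have hr1 : 1 ≤ r := by
    have : 0 < 26 * (n + 1) ^ 3 * 2 ^ S := by positivity
    omega
  have hr' : (0 : ℝ) < r := by exact_mod_cast hr1
  rw [le_div_iff₀ (by positivity), Real.rpow_natCast]
  have h4 : K ≤ S * cst n := by
    rw [div_le_iff₀ hc0] at hS
    exact hS
  exact (mul_le_mul_of_nonneg_right h4 (by positivity)).trans (Z_ge n hn S r hr)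

/-- The two-sided bound c r^(2n^2+2n) log r ≤ |Z| ≤ C r^(2n^2+2n) (log r)^(2n). -/
theorem Z_growth (n : ℕ) (hn : 1 ≤ n) : ∃ c C : ℝ, 0 < c ∧ ∀ᶠ r : ℕ in atTop,
    c * ((r : ℝ) ^ (2 * n ^ 2 + 2 * n) * Real.log r) ≤ ‖Z doubleEdge n r‖ ∧
      ‖Z doubleEdge n r‖ ≤ C * ((r : ℝ) ^ (2 * n ^ 2 + 2 * n) * Real.log r ^ (2 * n)) := by
  obtain ⟨C, hC⟩ := Z_upper n hn
  have hc0 := cst_pos n hn
  refine ⟨cst n / 4, |C| * 2 ^ (2 * n), by positivity, ?_⟩
  obtain ⟨M, hM⟩ : ∃ M, M = 26 * (n + 1) ^ 3 := ⟨_, rfl⟩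
  have hM0 : 0 < M := by rw [hM]; positivity
  filter_upwards [eventually_ge_atTop 3, eventually_ge_atTop (M ^ 2), eventually_ge_atTop (2 * M)]
    with r hr3 hrM hr2
  have hr0 : (0 : ℝ) < r := by
    have : 0 < r := by omega
    exact_mod_cast this
  have hr3' : (3 : ℝ) ≤ r := by exact_mod_cast hr3
  have hlog : 1 ≤ Real.log r := by
    rw [Real.le_log_iff_exp_le hr0]
    have := Real.exp_one_lt_d9
    linarith
  constructor
  · set S := Nat.log 2 (r / M) with hS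
    have hq : r / M ≠ 0 := by
      have : 2 ≤ r / M := (Nat.le_div_iff_mul_le hM0).mpr hr2
      omega
    have h1 : M * 2 ^ S ≤ r := by
      have h2 := Nat.pow_log_le_self 2 hq
      calc M * 2 ^ S ≤ M * (r / M) := Nat.mul_le_mul_left _ h2
        _ ≤ r := Nat.mul_div_le r M
    have h2 : r < M * 2 ^ (S + 1) := by
      have h3 : r / M < 2 ^ (S + 1) := Nat.lt_pow_succ_log_self (by norm_num) _
      rw [Nat.div_lt_iff_lt_mul hM0] at h3
      rw [mul_comm]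
      exact h3
    have h3 : 1 ≤ S := Nat.log_pos (by norm_num) ((Nat.le_div_iff_mul_le hM0).mpr hr2)
    have hMr : (0 : ℝ) < M := by exact_mod_cast hM0
    have h4 : Real.log r ≤ Real.log M + (S + 1) * Real.log 2 := by
      have h5 : (r : ℝ) ≤ M * 2 ^ (S + 1) := by exact_mod_cast h2.le
      have h6 := Real.log_le_log hr0 h5
      rw [Real.log_mul (by positivity) (by positivity), Real.log_pow] at h6
      push_cast at h6
      exact h6
    have h5 : 2 * Real.log M ≤ Real.log r := by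
      have h6 : (M : ℝ) ^ 2 ≤ r := by exact_mod_cast hrM
      have h7 := Real.log_le_log (by positivity) h6
      rw [Real.log_pow] at h7
      push_cast at h7
      exact h7
    have h6 : Real.log 2 ≤ 1 := by have := Real.log_two_lt_d9; linarith
    have h7 : Real.log r / 4 ≤ S := by
      have h8 : (1 : ℝ) ≤ S := by exact_mod_cast h3
      nlinarith
    have h8 := Z_ge n hn S r (by rw [← hM]; exact h1)
    refine le_trans ?_ h8
    have h9 : 0 ≤ cst n * (r : ℝ) ^ (2 * n ^ 2 + 2 * n) := by positivity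
    calc cst n / 4 * ((r : ℝ) ^ (2 * n ^ 2 + 2 * n) * Real.log r)
        = (Real.log r / 4) * (cst n * (r : ℝ) ^ (2 * n ^ 2 + 2 * n)) := by ring
      _ ≤ S * (cst n * (r : ℝ) ^ (2 * n ^ 2 + 2 * n)) := mul_le_mul_of_nonneg_right h7 h9
      _ = _ := by ring
  · have h1 := hC r (by omega)
    rw [Real.rpow_natCast] at h1
    have h2 : (1 + Real.log r) ^ (2 * n) ≤ (2 * Real.log r) ^ (2 * n) :=
      pow_le_pow_left₀ (by linarith) (by linarith) _
    calc ‖Z doubleEdge n r‖ ≤ C * ((r : ℝ) ^ (2 * n ^ 2 + 2 * n) * (1 + Real.log r) ^ (2 * n)) := h1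
      _ ≤ |C| * ((r : ℝ) ^ (2 * n ^ 2 + 2 * n) * (1 + Real.log r) ^ (2 * n)) := by
          refine mul_le_mul_of_nonneg_right (le_abs_self _) ?_
          have : 0 ≤ (1 + Real.log r) ^ (2 * n) := pow_nonneg (by linarith) _
          positivity
      _ ≤ |C| * ((r : ℝ) ^ (2 * n ^ 2 + 2 * n) * (2 * Real.log r) ^ (2 * n)) := by
          refine mul_le_mul_of_nonneg_left (mul_le_mul_of_nonneg_left h2 (by positivity)) (abs_nonneg _)
      _ = _ := by rw [mul_pow]; ring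

theorem main (n : ℕ) (hn : 1 ≤ n) (ω : ℕ → ℂ) (hω : ∀ k, ‖ω k‖ = 1) :
    ¬ H524R3.HasExpansion (n + 1) (fun k => ω k * Z doubleEdge n (k + (n + 1))) := by
  obtain ⟨C, hC⟩ := Z_upper n hn
  have h := not_hasExpansion (n + 1) ((2 * n ^ 2 + 2 * n : ℕ) : ℝ)
    (fun m => ω (m - (n + 1)) * Z doubleEdge n m) C (2 * n) ?_ ?_
  · simpa using h
  · filter_upwards [eventually_ge_atTop 1] with m hm
    rw [norm_mul, hω, one_mul]
    exact hC m hm
  · refine (Z_lower n hn).congr fun m => ?_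
    rw [norm_mul, hω, one_mul]

end H562SP
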