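import Mathlib
import Pool.Graph.R_seed8.H524R3.ExpDefs
import Pool.Graph.R_seed8.W719.AEC.Defs
import Pool.Agent.H562.SP.Defs
import Pool.Agent.H562.SP.Main

set_option autoImplicit false

open Filter

open H524R3 (HasExpansion)

open W719AEC (doubleEdge)

namespace Pool.Agent.H562.SP.Variant

/-- The asymptotic expansion conjecture fails for G = Sp(n) for every n ≥ 1 (rank n, dual Coxeter number
n + 1), already for one and the same closed oriented 3-manifold M: the graph manifold of the plumbing graph
doubleEdge, that is, the union of two copies of F x S^1, F the torus with two open discs removed, glued along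
both boundary tori by exchanging the fibre and the boundary of the base. With r = k + n + 1 and
E = 2 n^2 + 2 n the level k invariant Z_k(M) lies between c r^E log r and C r^E (log r)^(2n), and for every
choice of phases ω k of absolute value 1 (in particular in every 2-framing of M) the sequence of the level k
invariants ω k * Z_k(M) has no asymptotic expansion
∑_j exp (2 π i r c_j) r^(d_j) b_j (1 + ∑_l a_{j,l} r^(-l/2)), with any finite family of real phases c_j and
real exponents d_j. -/
theorem result (n : ℕ) (hn : 1 ≤ n) :
    (∃ c C : ℝ, 0 < c ∧ ∀ᶠ r : ℕ in atTop,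
      c * ((r : ℝ) ^ (2 * n ^ 2 + 2 * n) * Real.log r) ≤ ‖H562SP.Z doubleEdge n r‖ ∧
        ‖H562SP.Z doubleEdge n r‖ ≤ C * ((r : ℝ) ^ (2 * n ^ 2 + 2 * n) * Real.log r ^ (2 * n))) ∧
    ∀ ω : ℕ → ℂ, (∀ k, ‖ω k‖ = 1) →
      ¬ HasExpansion (n + 1) (fun k => ω k * H562SP.Z doubleEdge n (k + (n + 1))) :=
  ⟨H562SP.Z_growth n hn, fun ω hω => H562SP.main n hn ω hω⟩

end Pool.Agent.H562.SP.Variant
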